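import Pool.Agent.U660.MD.Dom
import Pool.Agent.Results.MP_89a3f8_ag.TerminationOfFlips

/-!
Nef and movable combinations on the small modifications: definitions and the main theorems in terms of
the definitions of `Pool.Agent.Results.MP_89a3f8_ag.TerminationOfFlips`.
-/

set_option autoImplicit false
set_option linter.all false
set_option maxHeartbeats 1000000

open FF MvPolynomial Pool.Agent.W602.GT
open Pool.Agent.Results.MP_89a3f8_ag.TerminationOfFlips

namespace Pool.Agent.U660.MD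

section defs

variable {K : Type} [Field K] [Algebra ℂ K] {p : ℕ} (N : ℕ) (δ : Fin p → Place ℂ K → ℚ)

/-- The real combination `∑ i, lam i * D i` is nef, on the variety with the coefficients `δ` (on which
some rational combination is ample): it is a limit of semiample rational combinations. By Kleiman's
theorem this is the case if and only if its degrees on all curves are nonnegative. -/
def IsNef (lam : Fin p → ℝ) : Prop :=
  ∀ ε : ℝ, 0 < ε → ∃ μ : Fin p → ℚ, (∀ i, |(μ i : ℝ) - lam i| ≤ ε) ∧ Semiample N δ μ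

/-- The real combination `∑ i, lam i * D i` is nef, without reference to ample combinations: there is a
divisor `A`, generated by a finite set `S` of functions (its coefficient at `P` is the maximum of the
numbers `- P.ord s`, `s ∈ S`, `s ≠ 0`), such that for every `M ≥ 1` there is `j ≥ 1` such that for every
prime divisor `P` over `X` there are an integral combination `μ` with `|μ i - j M lam i| ≤ j` and a section
`f` of `∑ i, μ i * D i + j A` which does not vanish at `P`. -/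
def IsNefUpTo (lam : Fin p → ℝ) : Prop :=
  ∃ S : Finset K, (∃ s ∈ S, s ≠ 0) ∧ ∀ M : ℕ, 1 ≤ M → ∃ j : ℕ, 1 ≤ j ∧
    ∀ P : Place ℂ K, Divisorial N P → ∃ μ : Fin p → ℤ, (∀ i, |(μ i : ℝ) - j * M * lam i| ≤ j) ∧
      ∃ f : K, f ≠ 0 ∧
        (∀ Q : Place ℂ K, Divisorial N Q → f = 0 ∨ ∃ s ∈ S, s ≠ 0 ∧
          (j : ℚ) * Q.ord s - ∑ i, (μ i : ℚ) * δ i Q ≤ Q.ord f) ∧
        ∀ s ∈ S, s ≠ 0 → (P.ord f : ℚ) ≤ j * P.ord s - ∑ i, (μ i : ℚ) * δ i P

/-- The integral combination `∑ i, ν i * D i` has a nonzero section and its linear system has no fixed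
divisor: if the products of `η` with all its sections are sections of `∑ i, (μ i + ν i) * D i` then `η`
is a section of `∑ i, μ i * D i`. -/
def IsMobile (ν : Fin p → ℤ) : Prop :=
  (∃ s : K, s ≠ 0 ∧ IsSection N δ ν s) ∧
    ∀ (μ : Fin p → ℤ) (η : K), (∀ s, IsSection N δ ν s → IsSection N δ (μ + ν) (η * s)) →
      IsSection N δ μ η

/-- The real combination `∑ i, lam i * D i` is movable: it is a limit of rational combinations with a
positive multiple which is mobile. -/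
def IsMovable (lam : Fin p → ℝ) : Prop :=
  ∀ ε : ℝ, 0 < ε → ∃ μ : Fin p → ℚ, (∀ i, |(μ i : ℝ) - lam i| ≤ ε) ∧
    ∃ k : ℕ, 1 ≤ k ∧ ∃ ν : Fin p → ℤ, (∀ i, (k : ℚ) * μ i = ν i) ∧ IsMobile N δ ν

end defs

section abs

variable {p N : ℕ} {K : Type} [Field K] [Algebra ℂ K]

open Pool.Agent.Q57.CX Pool.Agent.Q57.HK

theorem small_iff (δ δ' : Fin p → Place ℂ K → ℚ) :
    IsSmallModification N δ δ' ↔ ∃ lam, Small N δ δ' lam := by
  constructor
  · rintro ⟨h1, lam, h2⟩
    exact ⟨lam, h1, h2⟩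
  · rintro ⟨lam, h1, h2⟩
    exact ⟨h1, lam, h2⟩

theorem bpf_sum {δ : Fin p → Place ℂ K → ℚ} {B : ℕ} {h : Fin B → Fin p → ℤ}
    (hm : ∀ b, Pool.Agent.Q57.FT.Bpf N δ (h b)) (n : Fin B → ℕ) :
    Pool.Agent.Q57.FT.Bpf N δ (∑ b, n b • h b) := by
  classical
  have key : ∀ s : Finset (Fin B), Pool.Agent.Q57.FT.Bpf N δ (∑ b ∈ s, n b • h b) := by
    intro s
    induction s using Finset.induction_on with
    | empty => simpa using bpf_zero (N := N) (δ := δ)
    | insert b s hb ih =>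
      rw [Finset.sum_insert hb]
      exact bpf_add (bpf_nsmul (hm b) _) ih
  exact key Finset.univ

theorem semi_comb {δ : Fin p → Place ℂ K → ℚ} {B : ℕ} {h : Fin B → Fin p → ℤ}
    (hm : ∀ b, Pool.Agent.Q57.FT.Bpf N δ (h b)) {q : Fin B → ℚ} (hq : ∀ b, 0 ≤ q b) :
    SemiA N δ fun i => ∑ b, q b * h b i := by
  classical
  obtain ⟨k, hk, hz⟩ := common_den q
  choose z hz using hz
  have hz0 : ∀ b, 0 ≤ z b := by
    intro b
    have h1 : (0 : ℚ) ≤ k * q b := mul_nonneg (by positivity) (hq b)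
    rw [hz b] at h1
    exact_mod_cast h1
  refine ⟨k, hk, ∑ b, (z b).toNat • h b, fun i => ?_, bpf_sum hm _⟩
  rw [Finset.sum_apply, Finset.mul_sum]
  push_cast
  refine Finset.sum_congr rfl fun b _ => ?_
  rw [Pi.smul_apply, nsmul_eq_mul]
  push_cast
  have h1 : (((z b).toNat : ℤ) : ℚ) = z b := by rw [Int.toNat_of_nonneg (hz0 b)]
  have h2 : (((z b).toNat : ℕ) : ℚ) = z b := by exact_mod_cast h1
  rw [h2, ← hz b]
  ring

/-- the two notions of nef combinations agree if the nef cone is spanned by base point free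
combinations -/
theorem nef_of_cone {δ : Fin p → Place ℂ K → ℚ} {B : ℕ} {h : Fin B → Fin p → ℤ}
    (hb : ∀ b, Pool.Agent.Q57.FT.Bpf N δ (h b))
    (hn : ∀ lam, Pool.Agent.Q57.FT.NefZ N δ lam ↔ RC h lam) (lam : Fin p → ℝ) :
    IsNef N δ lam ↔ RC h lam := by
  constructor
  · intro hl
    refine rc_closed _ _ fun ε hε => ?_
    obtain ⟨μ, h1, k, hk, ν, hν, hbν⟩ := hl ε hε
    refine ⟨fun i => (μ i : ℝ), h1, ?_⟩
    have hk0 : (0 : ℝ) < k := by exact_mod_cast hk
    have h2 : RC h fun i => (ν i : ℝ) := by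
      rw [← hn]
      exact Pool.Agent.Q57.FT.nefZ_of (N0 := 1) (h := fun _ => ν) (fun _ => hbν) (t := fun _ => 1)
        (fun _ => zero_le_one) (fun i => by simp)
    have h3 := rc_smul h2 (c := (k : ℝ)⁻¹) (by positivity)
    convert h3 using 2
    rename_i i
    have h4 := hν i
    have h5 : (((k : ℚ) * μ i : ℚ) : ℝ) = ((ν i : ℚ) : ℝ) := by rw [h4]
    push_cast at h5
    rw [← h5]
    field_simp
  · intro hl ε hε
    obtain ⟨q, hq, hq2⟩ := rc_approx hl hε
    exact ⟨_, hq2, semi_comb hb hq⟩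

variable {δ : Fin p → Place ℂ K → ℚ} (hFG : (coxRing N δ).FG)

include hFG

theorem nef_main {δ' : Fin p → Place ℂ K → ℚ} (hδ' : IsSmallModification N δ δ') :
    (∃ (B : ℕ) (h : Fin B → Fin p → ℤ), (∀ b, BasePointFree N δ' (h b)) ∧
      {lam | IsNef N δ' lam} = coneOf h) ∧
    ((∀ lam, IsNef N δ' lam → IsNef N δ' (-lam) → lam = 0) →
      ∀ Γ : Subgroup (Matrix (Fin p) (Fin p) ℤ)ˣ,
        (∀ γ ∈ Γ, ∀ lam, IsNef N δ' lam → IsNef N δ' (apply γ lam)) →
        Finite Γ ∧ ∃ (M : ℕ) (π : Fin M → Fin p → ℤ), (∀ b, BasePointFree N δ' (π b)) ∧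
          IsFundamentalDomain Γ {lam | IsNef N δ' lam} (coneOf π)) := by
  obtain ⟨lam0, hs⟩ := (small_iff δ δ').1 hδ'
  obtain ⟨N0, g, f, hgen⟩ := gens_of_fg hFG
  obtain ⟨B, h, hb, hsemi, hnef⟩ := nef_cone hgen hs
  have hset : {lam | IsNef N δ' lam} = coneOf h := by
    ext lam
    exact hnef lam
  refine ⟨⟨B, h, hb, hset⟩, fun hpt Γ hΓ => ?_⟩
  obtain ⟨ε, hε, hamp⟩ := hs.2
  have hm : ∀ lam, IsNef N δ' lam ↔ lam ∈ coneOf h := hnef
  have hfull : ∀ lam : Fin p → ℝ, (∀ i, |lam i - (lam0 i : ℝ)| ≤ (ε : ℝ) / 2) →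
      lam ∈ coneOf h := by
    intro lam hl
    rw [← hm]
    intro η hη
    obtain ⟨r, hr0, hr1, hr2⟩ : ∃ r : ℝ, 0 < r ∧ r ≤ η ∧ r ≤ (ε : ℝ) / 2 :=
      ⟨min η ((ε : ℝ) / 2), lt_min hη (by have : (0 : ℝ) < ε := by exact_mod_cast hε
                                          linarith), min_le_left _ _, min_le_right _ _⟩
    have hq : ∀ i, ∃ q : ℚ, lam i < q ∧ (q : ℝ) < lam i + r := fun i =>
      exists_rat_btwn (by linarith)
    choose q hq1 hq2 using hq
    refine ⟨q, fun i => ?_, hamp q fun i => ?_⟩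
    · rw [abs_le]
      constructor <;> linarith [hq1 i, hq2 i]
    · have h1 := hl i
      have h2 : |((q i - lam0 i : ℚ) : ℝ)| ≤ ε := by
        push_cast
        rw [abs_le] at h1 ⊢
        constructor <;> linarith [hq1 i, hq2 i, h1.1, h1.2]
      exact_mod_cast h2
  obtain ⟨hfin, M, π, h1, h2⟩ := exists_domain h (fun lam h1 h2 => hpt lam ((hm _).2 h1)
    ((hm _).2 h2)) (fun i => (lam0 i : ℝ)) (ε := (ε : ℝ) / 2) (by
      have : (0 : ℝ) < ε := by exact_mod_cast hε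
      linarith) hfull Γ (fun γ hγ lam hl => (hm _).1 (hΓ γ hγ lam ((hm _).2 hl)))
  refine ⟨hfin, ?_⟩
  have hsπ : ∀ b, ∃ k : ℕ, 1 ≤ k ∧ BasePointFree N δ' (k • π b) := by
    intro b
    have h3 : RC h fun i => (π b i : ℝ) := h1 (rc_gen π b)
    have h4 : SemiA N δ' fun i => ((π b i : ℤ) : ℚ) := by
      rw [hsemi]
      convert h3 using 2
      push_cast
      rfl
    obtain ⟨k, hk, ν, hν, hbν⟩ := h4
    refine ⟨k, hk, ?_⟩
    have h5 : k • π b = ν := by
      funext i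
      have h6 := hν i
      beta_reduce at h6
      rw [Pi.smul_apply, nsmul_eq_mul]
      exact_mod_cast h6
    rw [h5]
    exact hbν
  choose k hk hkb using hsπ
  refine ⟨M, fun b => k b • π b, hkb, ?_⟩
  rw [hset, coneOf_scale hk fun _ => rfl]
  exact h2

theorem uniform_main : ∃ k : ℕ, 1 ≤ k ∧ ∀ δ' : Fin p → Place ℂ K → ℚ,
    IsSmallModification N δ δ' → ∀ ν : Fin p → ℤ, IsNef N δ' (fun i => (ν i : ℝ)) →
      BasePointFree N δ' (k • ν) := by
  obtain ⟨N0, g, f, hgen⟩ := gens_of_fg hFG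
  obtain ⟨k, hk, h⟩ := uniform_bpf hgen
  exact ⟨k, hk, fun δ' hδ' ν hν => h δ' ((small_iff δ δ').1 hδ') ν hν⟩

theorem mov_main (h0 : ∃ δ0, IsSmallModification N δ δ0) :
    ∃ (M : ℕ) (δs : Fin M → Fin p → Place ℂ K → ℚ), (∀ j, IsSmallModification N δ (δs j)) ∧
      (∀ δ' : Fin p → Place ℂ K → ℚ, IsSmallModification N δ δ' →
        ∃ j, ∀ P : Place ℂ K, Divisorial N P → ∀ i, δ' i P = δs j i P) ∧
      {lam | IsMovable N δ lam} = ⋃ j, {lam | IsNef N (δs j) lam} ∧
      (∀ j j', (interior {lam | IsNef N (δs j) lam} ∩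
          interior {lam | IsNef N (δs j') lam}).Nonempty →
        ∀ P : Place ℂ K, Divisorial N P → ∀ i, δs j i P = δs j' i P) ∧
      (∃ (B : ℕ) (m : Fin B → Fin p → ℤ), (∀ b, IsMobile N δ (m b)) ∧
        {lam | IsMovable N δ lam} = coneOf m) ∧
      ((∀ lam, IsMovable N δ lam → IsMovable N δ (-lam) → lam = 0) →
        ∀ Γ : Subgroup (Matrix (Fin p) (Fin p) ℤ)ˣ,
          (∀ γ ∈ Γ, ∀ lam, IsMovable N δ lam → IsMovable N δ (apply γ lam)) →
          Finite Γ ∧ ∃ (B : ℕ) (π : Fin B → Fin p → ℤ), (∀ b, IsMobile N δ (π b)) ∧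
            IsFundamentalDomain Γ {lam | IsMovable N δ lam} (coneOf π)) := by
  obtain ⟨δ0, hδ0⟩ := h0
  obtain ⟨lam0, hs0⟩ := (small_iff δ δ0).1 hδ0
  obtain ⟨N0, g, f, hgen⟩ := gens_of_fg hFG
  obtain ⟨M, δs, hs1, hs2⟩ := small_reps hgen
  obtain ⟨B, m, hm1, hm2⟩ := mov_cone hgen ⟨δ0, lam0, hs0⟩
  have hmov : ∀ lam, IsMovable N δ lam ↔ lam ∈ coneOf m := hm2
  have hset : {lam | IsMovable N δ lam} = coneOf m := by
    ext lam
    exact hmov lam
  refine ⟨M, δs, fun j => (small_iff _ _).2 (hs1 j), fun δ' hδ' => hs2 δ' ((small_iff _ _).1 hδ'),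
    ?_, ?_, ⟨B, m, hm1, hset⟩, fun hpt Γ hΓ => ?_⟩
  · ext lam
    simp only [Set.mem_setOf_eq, Set.mem_iUnion]
    refine (mov_iff hgen ⟨δ0, lam0, hs0⟩ lam).trans ?_
    constructor
    · rintro ⟨δ', hδ', hn⟩
      obtain ⟨j, hj⟩ := hs2 δ' hδ'
      exact ⟨j, nef_congr hj hn⟩
    · rintro ⟨j, hn⟩
      exact ⟨δs j, hs1 j, hn⟩
  · rintro j j' ⟨x, hx⟩
    have hopen : IsOpen (interior {lam | IsNef N (δs j) lam} ∩
        interior {lam | IsNef N (δs j') lam}) := isOpen_interior.inter isOpen_interior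
    obtain ⟨r, hr, hball⟩ := Metric.isOpen_iff.1 hopen x hx
    have hq : ∀ i, ∃ q : ℚ, x i < q ∧ (q : ℝ) < x i + r / 4 := fun i =>
      exists_rat_btwn (by linarith)
    choose q hq1 hq2 using hq
    obtain ⟨r', hr'0, hr'⟩ : ∃ r' : ℚ, 0 < r' ∧ (r' : ℝ) < r / 4 := by
      obtain ⟨q, h1, h2⟩ := exists_rat_btwn (show (0 : ℝ) < r / 4 by linarith)
      exact ⟨q, by exact_mod_cast h1, h2⟩
    have hnear : ∀ μ : Fin p → ℚ, (∀ i, |μ i - q i| ≤ r') →
        IsNef N (δs j) (fun i => (μ i : ℝ)) ∧ IsNef N (δs j') (fun i => (μ i : ℝ)) := by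
      intro μ hμ
      have hmem : (fun i => (μ i : ℝ)) ∈ Metric.ball x r := by
        rw [Metric.mem_ball]
        have : dist (fun i => (μ i : ℝ)) x ≤ r / 2 := by
          rw [dist_pi_le_iff (by linarith)]
          intro i
          rw [Real.dist_eq]
          have h1 : |((μ i - q i : ℚ) : ℝ)| ≤ r' := by exact_mod_cast hμ i
          push_cast at h1
          rw [abs_le] at h1 ⊢
          constructor <;> linarith [hq1 i, hq2 i, h1.1, h1.2]
        linarith
      obtain ⟨m1, m2⟩ := hball hmem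
      have m1' : (fun i => (μ i : ℝ)) ∈ {lam | IsNef N (δs j) lam} := interior_subset m1
      have m2' : (fun i => (μ i : ℝ)) ∈ {lam | IsNef N (δs j') lam} := interior_subset m2
      exact ⟨m1', m2'⟩
    have hsm : ∀ k : Fin M, (∀ μ : Fin p → ℚ, (∀ i, |μ i - q i| ≤ r') →
        IsNef N (δs k) (fun i => (μ i : ℝ))) → Small N δ (δs k) q := by
      intro k hk
      obtain ⟨lamk, hlk⟩ := hs1 k
      obtain ⟨Bk, hkk, hb, hsemi, hnef⟩ := nef_cone hgen hlk
      exact ⟨hlk.1, r', hr'0, fun μ hμ => (hsemi μ).2 ((hnef _).1 (hk μ hμ))⟩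
    have e1 := hsm j fun μ hμ => (hnear μ hμ).1
    have e2 := hsm j' fun μ hμ => (hnear μ hμ).2
    exact fun P hP i => eq_of_sig hgen e1 e2 rfl hP i
  · obtain ⟨ε, hε, hamp⟩ := hs0.2
    have hfull : ∀ lam : Fin p → ℝ, (∀ i, |lam i - (lam0 i : ℝ)| ≤ (ε : ℝ) / 2) →
        lam ∈ coneOf m := by
      intro lam hl
      rw [← hmov]
      intro η hη
      obtain ⟨r, hr0, hr1, hr2⟩ : ∃ r : ℝ, 0 < r ∧ r ≤ η ∧ r ≤ (ε : ℝ) / 2 :=
        ⟨min η ((ε : ℝ) / 2), lt_min hη (by have : (0 : ℝ) < ε := by exact_mod_cast hε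
                                            linarith), min_le_left _ _, min_le_right _ _⟩
      have hq : ∀ i, ∃ q : ℚ, lam i < q ∧ (q : ℝ) < lam i + r := fun i =>
        exists_rat_btwn (by linarith)
      choose q hq1 hq2 using hq
      refine ⟨q, fun i => ?_, mobA_of_semi hs0.1 (hamp q fun i => ?_)⟩
      · rw [abs_le]
        constructor <;> linarith [hq1 i, hq2 i]
      · have h1 := hl i
        have h2 : |((q i - lam0 i : ℚ) : ℝ)| ≤ ε := by
          push_cast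
          rw [abs_le] at h1 ⊢
          constructor <;> linarith [hq1 i, hq2 i, h1.1, h1.2]
        exact_mod_cast h2
    obtain ⟨hfin, Mp, π, h1, h2⟩ := exists_domain m (fun lam h1 h2 => hpt lam ((hmov _).2 h1)
      ((hmov _).2 h2)) (fun i => (lam0 i : ℝ)) (ε := (ε : ℝ) / 2) (by
        have : (0 : ℝ) < ε := by exact_mod_cast hε
        linarith) hfull Γ (fun γ hγ lam hl => (hmov _).1 (hΓ γ hγ lam ((hmov _).2 hl)))
    refine ⟨hfin, ?_⟩
    have hsπ : ∀ b, ∃ k : ℕ, 1 ≤ k ∧ IsMobile N δ (k • π b) := by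
      intro b
      have h3 : RC m fun i => (π b i : ℝ) := h1 (rc_gen π b)
      obtain ⟨t, ht, ht2⟩ := rc_rat m (fun i => ((π b i : ℤ) : ℚ)) (by
        convert h3 using 2
        push_cast
        rfl)
      obtain ⟨k, hk, ν, hν, hbν⟩ := mobA_comb hm1 ht
      refine ⟨k, hk, ?_⟩
      have h5 : k • π b = ν := by
        funext i
        have h6 := hν i
        beta_reduce at h6
        rw [← ht2 i] at h6
        rw [Pi.smul_apply, nsmul_eq_mul]
        exact_mod_cast h6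
      rw [h5]
      exact hbν
    choose k hk hkb using hsπ
    refine ⟨Mp, fun b => k b • π b, hkb, ?_⟩
    rw [hset, coneOf_scale hk fun _ => rfl]
    exact h2

end abs

end Pool.Agent.U660.MD
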