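import Pool.Agent.U660.MD.Nef

/-!
The contractions of the small modifications.
-/

set_option autoImplicit false
set_option linter.all false
set_option maxHeartbeats 1000000

open FF MvPolynomial Pool.Agent.W602.GT
open Pool.Agent.Results.MP_89a3f8_ag.TerminationOfFlips

namespace Pool.Agent.U660.MD

section defs

variable {K : Type} [Field K] [Algebra ℂ K] {p : ℕ} (N : ℕ) (δ : Fin p → Place ℂ K → ℚ)

/-- The section `f` of `∑ i, ν i * D i` vanishes at `P`: it is zero, or its order at `P` is greater than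
minus the coefficient of `∑ i, ν i * D i`. -/
def Vanishes (ν : Fin p → ℤ) (P : Place ℂ K) (f : K) : Prop :=
  f = 0 ∨ - ∑ i, (ν i : ℚ) * δ i P < P.ord f

/-- The prime divisors `P` and `Q` over `X` have the same centre under the morphism with connected
fibres which is defined by the multiples of the base point free combination `ν`: the same sections of
the multiples of `ν` vanish at `P` and at `Q`. -/
def SameCentre (ν : Fin p → ℤ) (P Q : Place ℂ K) : Prop :=
  ∀ (k : ℕ) (f : K), IsSection N δ (k • ν) f → (Vanishes δ (k • ν) P f ↔ Vanishes δ (k • ν) Q f)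

/-- The nef real combinations `lam` and `lam'` are in the relative interior of the same face of the nef
cone: `c lam' - lam` and `c lam - lam'` are nef for some `c > 0`. If `lam'` is integral and base point
free then this says that `lam` is the pullback of an ample real class under the morphism with connected
fibres which is defined by the multiples of `lam'`. -/
def SameFace (lam lam' : Fin p → ℝ) : Prop :=
  ∃ c : ℝ, 0 < c ∧ IsNef N δ (c • lam' - lam) ∧ IsNef N δ (c • lam - lam')

end defs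

section abs

variable {p N : ℕ} {K : Type} [Field K] [Algebra ℂ K] {δ : Fin p → Place ℂ K → ℚ}

open Pool.Agent.Q57.FT Pool.Agent.Q57.CX Pool.Agent.Q57.HK

theorem coef_add (μ ν : Fin p → ℤ) (P : Place ℂ K) : ∑ i, (((μ + ν) i : ℤ) : ℚ) * δ i P =
    ∑ i, (μ i : ℚ) * δ i P + ∑ i, (ν i : ℚ) * δ i P := by
  rw [← Finset.sum_add_distrib]
  refine Finset.sum_congr rfl fun i _ => ?_
  rw [Pi.add_apply]
  push_cast
  ring

theorem coef_nsmul (k : ℕ) (ν : Fin p → ℤ) (P : Place ℂ K) : ∑ i, (((k • ν) i : ℤ) : ℚ) * δ i P =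
    k * ∑ i, (ν i : ℚ) * δ i P := by
  rw [Finset.mul_sum]
  refine Finset.sum_congr rfl fun i _ => ?_
  rw [Pi.smul_apply, nsmul_eq_mul]
  push_cast
  ring

theorem van_mul {μ ν : Fin p → ℤ} {P : Place ℂ K} {f h : K} (hP : Divisorial N P)
    (hh : ZSec N δ ν h) (hn : ¬ Vanishes δ ν P h) :
    Vanishes δ (μ + ν) P (f * h) ↔ Vanishes δ μ P f := by
  unfold Vanishes at *
  push Not at hn
  obtain ⟨h0, h1⟩ := hn
  have h2 := (hh P hP).resolve_left h0
  rw [coef_add]
  by_cases hf : f = 0
  · simp [hf]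
  · rw [P.ord_mul hf h0]
    push_cast
    simp only [mul_eq_zero, hf, h0, or_false, false_or]
    constructor <;> intro h3 <;> linarith

theorem van_pow {ν : Fin p → ℤ} {P : Place ℂ K} {f : K} {b : ℕ} (hb : 1 ≤ b) :
    Vanishes δ (b • ν) P (f ^ b) ↔ Vanishes δ ν P f := by
  unfold Vanishes
  have hb0 : (0 : ℚ) < b := by exact_mod_cast hb
  rw [coef_nsmul]
  by_cases hf : f = 0
  · simp only [hf, true_or, iff_true]
    left
    exact zero_pow (by omega)
  · rw [P.ord_pow]
    push_cast
    have h0 : f ^ b ≠ 0 := pow_ne_zero _ hf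
    simp only [hf, h0, false_or]
    rw [← mul_neg]
    exact mul_lt_mul_iff_right₀ hb0

theorem exists_nonvan {ν : Fin p → ℤ} (hb : Bpf N δ ν) {P Q : Place ℂ K} (hP : Divisorial N P)
    (hQ : Divisorial N Q) : ∃ h : K, ZSec N δ ν h ∧ ¬ Vanishes δ ν P h ∧ ¬ Vanishes δ ν Q h := by
  obtain ⟨f, hf0, hf, hfP⟩ := hb P hP
  obtain ⟨g, hg0, hg, hgQ⟩ := hb Q hQ
  have nf : ¬ Vanishes δ ν P f := by
    unfold Vanishes
    push Not
    exact ⟨hf0, hfP⟩
  have ng : ¬ Vanishes δ ν Q g := by
    unfold Vanishes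
    push Not
    exact ⟨hg0, hgQ⟩
  by_cases h1 : Vanishes δ ν Q f
  swap
  · exact ⟨f, hf, nf, h1⟩
  by_cases h2 : Vanishes δ ν P g
  swap
  · exact ⟨g, hg, h2, ng⟩
  have h1' := h1.resolve_left hf0
  have h2' := h2.resolve_left hg0
  have e1 : P.ord f < P.ord g := by
    have : (P.ord f : ℚ) < P.ord g := lt_of_le_of_lt hfP h2'
    exact_mod_cast this
  have e2 : Q.ord g < Q.ord f := by
    have : (Q.ord g : ℚ) < Q.ord f := lt_of_le_of_lt hgQ h1'
    exact_mod_cast this
  obtain ⟨k1, k2⟩ := P.ord_add_eq hf0 hg0 e1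
  obtain ⟨k3, k4⟩ := Q.ord_add_eq hg0 hf0 e2
  rw [add_comm] at k3 k4
  refine ⟨f + g, fun R hR => ?_, ?_, ?_⟩
  · right
    have m1 := (hf R hR).resolve_left hf0
    have m2 := (hg R hR).resolve_left hg0
    have m3 := R.ord_add hf0 hg0 k1
    have m4 : ((min (R.ord f) (R.ord g) : ℤ) : ℚ) ≤ R.ord (f + g) := by exact_mod_cast m3
    refine le_trans ?_ m4
    push_cast
    exact le_min m1 m2
  · unfold Vanishes
    push Not
    exact ⟨k1, by rw [k2]; exact hfP⟩
  · unfold Vanishes
    push Not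
    exact ⟨k1, by rw [k4]; exact hgQ⟩

/-- the morphism for `ν` factors through the morphism for `ν'` -/
theorem same_of_dom {ν ν' M : Fin p → ℤ} (hM : Bpf N δ M) {a b : ℕ} (hb : 1 ≤ b)
    (hab : a • ν' = b • ν + M) {P Q : Place ℂ K} (hP : Divisorial N P) (hQ : Divisorial N Q)
    (h : SameCentre N δ ν' P Q) : SameCentre N δ ν P Q := by
  intro k f hf
  obtain ⟨s, hs, hsP, hsQ⟩ := exists_nonvan (bpf_nsmul hM k) hP hQ
  have h1 : ZSec N δ (b • (k • ν) + k • M) (f ^ b * s) := zsec_mul (zsec_pow hf b) hs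
  have h2 : b • (k • ν) + k • M = (k * a) • ν' := by
    rw [mul_smul, hab, smul_add, smul_comm]
  have h3 := h (k * a) (f ^ b * s) (by rw [← h2]; exact h1)
  rw [← h2, van_mul hP hs hsP, van_mul hQ hs hsQ, van_pow hb, van_pow hb] at h3
  exact h3

theorem nef_set {δ' : Fin p → Place ℂ K → ℚ} {B : ℕ} {h : Fin B → Fin p → ℤ}
    (hn : ∀ lam, IsNef N δ' lam ↔ RC h lam) {lam lam' : Fin p → ℝ} (h1 : IsNef N δ' lam)
    (h2 : IsNef N δ' lam') {a b : ℝ} (ha : 0 ≤ a) (hb : 0 ≤ b) :
    IsNef N δ' (a • lam + b • lam') := by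
  rw [hn] at *
  exact rc_add (rc_smul h1 ha) (rc_smul h2 hb)

variable (hFG : (coxRing N δ).FG)

include hFG

/-- **The contractions.** -/
theorem contr_main : ∃ k : ℕ, 1 ≤ k ∧ ∀ δ' : Fin p → Place ℂ K → ℚ, IsSmallModification N δ δ' →
    (∀ ν : Fin p → ℤ, IsNef N δ' (fun i => (ν i : ℝ)) → BasePointFree N δ' (k • ν)) ∧
    ∃ (M : ℕ) (L : Fin M → Fin p → ℤ), (∀ j, BasePointFree N δ' (L j)) ∧
      (∀ lam : Fin p → ℝ, IsNef N δ' lam → ∃! j, SameFace N δ' lam (fun i => (L j i : ℝ))) ∧
      ∀ (ν : Fin p → ℤ) (j : Fin M), IsNef N δ' (fun i => (ν i : ℝ)) →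
        SameFace N δ' (fun i => (ν i : ℝ)) (fun i => (L j i : ℝ)) →
        ∀ P Q : Place ℂ K, Divisorial N P → Divisorial N Q →
          (SameCentre N δ' (k • ν) P Q ↔ SameCentre N δ' (L j) P Q) := by
  classical
  obtain ⟨k, hk, huni⟩ := uniform_main hFG
  refine ⟨k, hk, fun δ' hδ' => ⟨huni δ' hδ', ?_⟩⟩
  obtain ⟨lam0, hs⟩ := (small_iff δ δ').1 hδ'
  obtain ⟨N0, g, f, hgen⟩ := gens_of_fg hFG
  obtain ⟨B, h, hb, hsemi, hnef⟩ := nef_cone hgen hs
  have hn : ∀ lam, IsNef N δ' lam ↔ RC h lam := hnef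
  -- the sums of the generators
  obtain ⟨LS, hLS⟩ : ∃ LS : Finset (Fin B) → Fin p → ℤ, LS = fun S => ∑ b ∈ S, h b := ⟨_, rfl⟩
  have hLSbpf : ∀ S, Bpf N δ' (LS S) := by
    intro S
    rw [hLS]
    beta_reduce
    induction S using Finset.induction_on with
    | empty => simpa using bpf_zero (N := N) (δ := δ')
    | insert b s hbs ih => rw [Finset.sum_insert hbs]; exact bpf_add (hb b) ih
  have hLSi : ∀ S i, ((LS S i : ℤ) : ℝ) = ∑ b, (if b ∈ S then (1 : ℝ) else 0) * h b i := by
    intro S i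
    rw [hLS]
    beta_reduce
    rw [Finset.sum_apply]
    push_cast
    simp only [ite_mul, one_mul, zero_mul]
    rw [Finset.sum_ite_mem, Finset.univ_inter]
  have hbnef : ∀ ν : Fin p → ℤ, Bpf N δ' ν → IsNef N δ' (fun i => (ν i : ℝ)) := by
    intro ν hν ε hε
    refine ⟨fun i => ((ν i : ℤ) : ℚ), fun i => by simp [hε.le], 1, le_rfl, ν, fun i => by simp, hν⟩
  have hLSnef : ∀ S, IsNef N δ' (fun i => (LS S i : ℝ)) := fun S => hbnef _ (hLSbpf S)
  have hface : ∀ lam, IsNef N δ' lam → ∃ S, SameFace N δ' lam (fun i => (LS S i : ℝ)) := by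
    intro lam hl
    obtain ⟨t, ht, ht2⟩ := (hn lam).1 hl
    refine ⟨Finset.univ.filter fun b => 0 < t b, ∑ b, t b + ∑ b, (if 0 < t b then 1 / t b else 0) + 1,
      ?_, ?_, ?_⟩
    · have h1 : 0 ≤ ∑ b, t b := Finset.sum_nonneg fun b _ => ht b
      have h2 : 0 ≤ ∑ b, (if 0 < t b then 1 / t b else 0) := Finset.sum_nonneg fun b _ => by
        split_ifs with h3
        · positivity
        · exact le_rfl
      linarith
    all_goals
      have h1 : 0 ≤ ∑ b, t b := Finset.sum_nonneg fun b _ => ht b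
      have h2' : ∀ b, 0 ≤ (if 0 < t b then 1 / t b else 0) := fun b => by
        split_ifs with h3
        · positivity
        · exact le_rfl
      have h2 : 0 ≤ ∑ b, (if 0 < t b then 1 / t b else 0) := Finset.sum_nonneg fun b _ => h2' b
      have h3 : ∀ b, t b ≤ ∑ b, t b := fun b =>
        Finset.single_le_sum (f := t) (fun b _ => ht b) (Finset.mem_univ b)
      have h4 : ∀ b, (if 0 < t b then 1 / t b else 0) ≤ ∑ b, (if 0 < t b then 1 / t b else 0) :=
        fun b => Finset.single_le_sum (f := fun b => (if 0 < t b then 1 / t b else 0))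
          (fun b _ => h2' b) (Finset.mem_univ b)
      obtain ⟨c, hc⟩ : ∃ c, c = ∑ b, t b + ∑ b, (if 0 < t b then 1 / t b else 0) + 1 := ⟨_, rfl⟩
      rw [← hc, hn]
    · refine ⟨fun b => if 0 < t b then c - t b else 0, fun b => ?_, fun i => ?_⟩
      · beta_reduce
        split_ifs with h5
        · have := h3 b
          linarith
        · exact le_rfl
      · rw [Pi.sub_apply, Pi.smul_apply, smul_eq_mul, hLSi, ht2, Finset.mul_sum,
          ← Finset.sum_sub_distrib]
        refine Finset.sum_congr rfl fun b _ => ?_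
        simp only [Finset.mem_filter, Finset.mem_univ, true_and]
        split_ifs with h5
        · ring
        · have h6 : t b = 0 := le_antisymm (not_lt.1 h5) (ht b)
          rw [h6]
          ring
    · refine ⟨fun b => if 0 < t b then c * t b - 1 else 0, fun b => ?_, fun i => ?_⟩
      · beta_reduce
        split_ifs with h5
        · have h6 := h4 b
          rw [if_pos h5] at h6
          have h7 : 1 / t b ≤ c := by linarith
          rw [div_le_iff₀ h5] at h7
          linarith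
        · exact le_rfl
      · rw [Pi.sub_apply, Pi.smul_apply, smul_eq_mul, hLSi, ht2, Finset.mul_sum,
          ← Finset.sum_sub_distrib]
        refine Finset.sum_congr rfl fun b _ => ?_
        simp only [Finset.mem_filter, Finset.mem_univ, true_and]
        split_ifs with h5
        · ring
        · have h6 : t b = 0 := le_antisymm (not_lt.1 h5) (ht b)
          rw [h6]
          ring
  have hsymm : ∀ a b, SameFace N δ' a b → SameFace N δ' b a := by
    rintro a b ⟨c, hc, h1, h2⟩
    exact ⟨c, hc, h2, h1⟩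
  have htrans : ∀ a b d, SameFace N δ' a b → SameFace N δ' b d → SameFace N δ' a d := by
    rintro a b d ⟨c, hc, h1, h2⟩ ⟨c', hc', h3, h4⟩
    refine ⟨c * c', by positivity, ?_, ?_⟩
    · have := nef_set hn h3 h1 hc.le zero_le_one
      have e : c • (c' • d - b) + (1 : ℝ) • (c • b - a) = (c * c') • d - a := by
        rw [smul_sub, smul_smul, one_smul]
        abel
      rwa [e] at this
    · have := nef_set hn h2 h4 hc'.le zero_le_one
      have e : c' • (c • a - b) + (1 : ℝ) • (c' • b - d) = (c * c') • a - d := by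
        rw [smul_sub, smul_smul, one_smul, mul_comm]
        abel
      rwa [e] at this
  have hrefl : ∀ a, IsNef N δ' a → SameFace N δ' a a := by
    intro a ha
    have h1 := nef_set hn ha ha zero_le_one le_rfl
    have e : (1 : ℝ) • a + (0 : ℝ) • a = (2 : ℝ) • a - a := by
      rw [one_smul, zero_smul, two_smul]
      abel
    rw [e] at h1
    exact ⟨2, two_pos, h1, h1⟩
  let r : Setoid (Finset (Fin B)) :=
    { r := fun S S' => SameFace N δ' (fun i => (LS S i : ℝ)) (fun i => (LS S' i : ℝ))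
      iseqv := ⟨fun S => hrefl _ (hLSnef S), fun h => hsymm _ _ h, fun h h' => htrans _ _ _ h h'⟩ }
  have hfq : Fintype (Quotient r) := Fintype.ofFinite _
  let e : Quotient r ≃ Fin (Fintype.card (Quotient r)) := Fintype.equivFin _
  refine ⟨Fintype.card (Quotient r), fun j => LS (e.symm j).out, fun j => hLSbpf _, ?_, ?_⟩
  · intro lam hl
    obtain ⟨S, hS⟩ := hface lam hl
    refine ⟨e ⟦S⟧, ?_, fun j hj => ?_⟩
    · beta_reduce
      rw [Equiv.symm_apply_apply]
      have h1 : r.r S (Quotient.out (⟦S⟧ : Quotient r)) :=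
        r.symm (Quotient.exact (Quotient.out_eq (⟦S⟧ : Quotient r)))
      exact htrans _ _ _ hS h1
    · beta_reduce at hj
      have h1 : r.r (Quotient.out (e.symm j)) S := htrans _ _ _ (hsymm _ _ hj) hS
      have h2 : (⟦Quotient.out (e.symm j)⟧ : Quotient r) = ⟦S⟧ := Quotient.sound h1
      rw [Quotient.out_eq] at h2
      rw [← h2, Equiv.apply_symm_apply]
  · rintro ν j hν ⟨c, hc, h1, h2⟩ P Q hP hQ
    obtain ⟨Lj, hLj⟩ : ∃ Lj, Lj = LS (e.symm j).out := ⟨_, rfl⟩
    beta_reduce at h1 h2 ⊢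
    rw [← hLj] at h1 h2 ⊢
    have hLjn : IsNef N δ' (fun i => (Lj i : ℝ)) := by rw [hLj]; exact hLSnef _
    obtain ⟨n, hcn⟩ := exists_nat_gt c
    have hint : ∀ μ μ' : Fin p → ℤ, IsNef N δ' (fun i => (μ' i : ℝ)) →
        IsNef N δ' (c • (fun i => (μ' i : ℝ)) - fun i => (μ i : ℝ)) →
        Bpf N δ' (k • (n • μ' - μ)) := by
      intro μ μ' h3 h4
      refine huni δ' hδ' _ ?_
      have h5 := nef_set hn h3 h4 (a := n - c) (b := 1) (by linarith) zero_le_one
      convert h5 using 1
      funext i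
      have e1 : (n • μ' - μ) i = (n : ℤ) * μ' i - μ i := by
        rw [Pi.sub_apply, Pi.smul_apply, nsmul_eq_mul]
      rw [e1]
      simp only [Pi.add_apply, Pi.sub_apply, Pi.smul_apply, smul_eq_mul, one_mul]
      push_cast
      ring
    constructor
    · intro hsc
      refine same_of_dom (ν := Lj) (ν' := k • ν) (a := n) (b := k)
        (hint Lj ν hν h2) hk ?_ hP hQ hsc
      rw [smul_sub, smul_comm n k]
      abel
    · intro hsc
      refine same_of_dom (ν := k • ν) (ν' := Lj) (a := k * n) (b := 1)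
        (hint ν Lj hLjn h1) le_rfl ?_ hP hQ hsc
      rw [smul_sub, one_smul, mul_smul]
      abel

end abs

end Pool.Agent.U660.MD
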