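import Pool.Agent.U660.MD.Mov

/-!
Fundamental domains for groups of integral matrices on rational polyhedral cones.
-/

set_option autoImplicit false
set_option linter.all false
set_option maxHeartbeats 1000000

open Set

namespace Pool.Agent.U660.MD

variable {p : ℕ}

/-- The cone of the nonnegative real combinations of the integral vectors `h b`. -/
def coneOf {B : ℕ} (h : Fin B → Fin p → ℤ) : Set (Fin p → ℝ) :=
  {lam | ∃ t : Fin B → ℝ, (∀ b, 0 ≤ t b) ∧ ∀ i, lam i = ∑ b, t b * h b i}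

/-- The action of an invertible integral matrix on the real vectors. -/
def apply (γ : (Matrix (Fin p) (Fin p) ℤ)ˣ) (lam : Fin p → ℝ) : Fin p → ℝ :=
  fun i => ∑ j, ((γ : Matrix (Fin p) (Fin p) ℤ) i j : ℝ) * lam j

/-- The set `D` is a fundamental domain for the action of the group `Γ` of integral matrices on the
cone `C`: `C` is the union of the images `γ D`, and the interiors of `D` and `γ D` are disjoint for
`γ ≠ 1`. -/
structure IsFundamentalDomain (Γ : Subgroup (Matrix (Fin p) (Fin p) ℤ)ˣ) (C D : Set (Fin p → ℝ)) :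
    Prop where
  cover : C = ⋃ γ ∈ Γ, apply γ '' D
  disjoint : ∀ γ ∈ Γ, γ ≠ 1 → interior D ∩ interior (apply γ '' D) = ∅

theorem apply_inv (γ : (Matrix (Fin p) (Fin p) ℤ)ˣ) (lam : Fin p → ℝ) :
    apply γ⁻¹ (apply γ lam) = lam := by
  have := act_mul γ⁻¹ γ lam
  rw [inv_mul_cancel, act_one] at this
  exact this.symm

theorem apply_inv' (γ : (Matrix (Fin p) (Fin p) ℤ)ˣ) (lam : Fin p → ℝ) :
    apply γ (apply γ⁻¹ lam) = lam := by
  have := act_mul γ γ⁻¹ lam
  rw [mul_inv_cancel, act_one] at this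
  exact this.symm

/-- **Fundamental domains**: pointed cones with an interior point -/
theorem exists_domain {B : ℕ} (h : Fin B → Fin p → ℤ)
    (hpt : ∀ lam, lam ∈ coneOf h → -lam ∈ coneOf h → lam = 0)
    (lam0 : Fin p → ℝ) {ε : ℝ} (hε : 0 < ε)
    (hfull : ∀ lam : Fin p → ℝ, (∀ i, |lam i - lam0 i| ≤ ε) → lam ∈ coneOf h)
    (Γ : Subgroup (Matrix (Fin p) (Fin p) ℤ)ˣ)
    (hΓ : ∀ γ ∈ Γ, ∀ lam, lam ∈ coneOf h → apply γ lam ∈ coneOf h) :
    Finite Γ ∧ ∃ (M : ℕ) (π : Fin M → Fin p → ℤ), coneOf π ⊆ coneOf h ∧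
      IsFundamentalDomain Γ (coneOf h) (coneOf π) := by
  have hfin : Finite Γ := finite_grp h (fun lam h1 h2 i => by
    have := hpt lam h1 h2
    rw [this]
    rfl) lam0 hε hfull Γ hΓ
  refine ⟨hfin, ?_⟩
  obtain ⟨M, π, h1, h2, h3⟩ := fund_dom h Γ hfin hΓ
  refine ⟨M, π, fun lam hl => h1 lam hl, ?_, fun γ hγ hne => ?_⟩
  · ext lam
    simp only [mem_iUnion, mem_image]
    constructor
    · intro hl
      obtain ⟨γ, hγ, hr⟩ := h2 lam hl
      exact ⟨γ⁻¹, Γ.inv_mem hγ, apply γ lam, hr, apply_inv γ lam⟩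
    · rintro ⟨γ, hγ, x, hx, rfl⟩
      exact hΓ γ hγ x (h1 x hx)
  · by_contra hcon
    obtain ⟨lam1, hl1⟩ := nonempty_iff_ne_empty.2 hcon
    have hopen : IsOpen (interior (coneOf π) ∩ interior (apply γ '' coneOf π)) :=
      isOpen_interior.inter isOpen_interior
    obtain ⟨r, hr, hball⟩ := Metric.isOpen_iff.1 hopen lam1 hl1
    obtain ⟨lam, hl, hn⟩ := h3 γ⁻¹ (Γ.inv_mem hγ) (by
      intro h
      exact hne (inv_eq_one.1 h)) lam1 (r / 2) (by linarith)
    apply hn
    have hm : lam ∈ Metric.ball lam1 r := by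
      rw [Metric.mem_ball]
      have : dist lam lam1 ≤ r / 2 := by
        rw [dist_pi_le_iff (by linarith)]
        intro i
        rw [Real.dist_eq]
        exact hl i
      linarith
    obtain ⟨m1, m2⟩ := hball hm
    have m1' : lam ∈ coneOf π := interior_subset m1
    have m2' : lam ∈ apply γ '' coneOf π := interior_subset m2
    refine ⟨m1', ?_⟩
    obtain ⟨x, hx, hxl⟩ := m2'
    rw [← hxl]
    have := apply_inv γ x
    change RC π (apply γ⁻¹ (apply γ x))
    rw [this]
    exact hx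

/-- positive multiples of the generators -/
theorem coneOf_scale {B : ℕ} {h h' : Fin B → Fin p → ℤ} {k : Fin B → ℕ} (hk : ∀ b, 1 ≤ k b)
    (hh : ∀ b, h' b = k b • h b) : coneOf h' = coneOf h := by
  ext lam
  refine (rc_scale (c := fun b => (k b : ℝ)) (fun b => by have := hk b; positivity)
    (fun b i => ?_) lam).symm
  rw [hh]
  simp

end Pool.Agent.U660.MD
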