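import Pool.Agent.U660.MD.Mod

/-!
Linear programming duality over the rational numbers, and generic rational points.
-/

set_option autoImplicit false
set_option linter.all false
set_option maxHeartbeats 1000000

open Pool.Agent.Q57.HK

namespace Pool.Agent.U660.MD

theorem exists_pos_le {α : Type} [Field α] [LinearOrder α] [IsStrictOrderedRing α] {ι : Type}
    [Fintype ι] (a : ι → α) (P : ι → Prop) (h : ∀ i, P i → 0 < a i) :
    ∃ ε : α, 0 < ε ∧ ∀ i, P i → ε ≤ a i := by
  classical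
  have key : ∀ s : Finset ι, ∃ ε : α, 0 < ε ∧ ∀ i ∈ s, P i → ε ≤ a i := by
    intro s
    induction s using Finset.induction_on with
    | empty => exact ⟨1, one_pos, fun i hi => absurd hi (Finset.notMem_empty i)⟩
    | insert j s hj ih =>
      obtain ⟨ε, hε, hs⟩ := ih
      by_cases hP : P j
      · refine ⟨min ε (a j), lt_min hε (h j hP), fun i hi hPi => ?_⟩
        rcases Finset.mem_insert.1 hi with rfl | hi
        · exact min_le_right _ _
        · exact (min_le_left _ _).trans (hs i hi hPi)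
      · refine ⟨ε, hε, fun i hi hPi => ?_⟩
        rcases Finset.mem_insert.1 hi with rfl | hi
        · exact absurd hPi hP
        · exact hs i hi hPi
  obtain ⟨ε, hε, h1⟩ := key Finset.univ
  exact ⟨ε, hε, fun i hi => h1 i (Finset.mem_univ i) hi⟩

variable {p : ℕ}

theorem exists_T {ι : Type} [Fintype ι] (A : ι → Fin p → ℤ) :
    ∃ T : ℤ, ∀ r, A r ≠ 0 → ∑ i : Fin p, A r i * T ^ (i : ℕ) ≠ 0 := by
  classical
  let q : ι → Polynomial ℤ := fun r => ∑ i : Fin p, Polynomial.monomial (i : ℕ) (A r i)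
  have hq : ∀ r i, (q r).coeff (i : Fin p).1 = A r i := by
    intro r i
    simp only [q, Polynomial.finset_sum_coeff, Polynomial.coeff_monomial]
    rw [Finset.sum_eq_single i]
    · simp
    · intro b _ hb
      rw [if_neg]
      intro hbi
      exact hb (Fin.ext hbi)
    · intro hi
      exact absurd (Finset.mem_univ i) hi
  obtain ⟨Q, hQ⟩ : ∃ Q : Polynomial ℤ, Q = ∏ r, (if A r = 0 then 1 else q r) := ⟨_, rfl⟩
  have hQ0 : Q ≠ 0 := by
    rw [hQ]
    refine Finset.prod_ne_zero_iff.2 fun r _ => ?_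
    split_ifs with h0
    · exact one_ne_zero
    · intro h1
      apply h0
      funext i
      rw [← hq r i, h1, Polynomial.coeff_zero]
      rfl
  obtain ⟨T, hT⟩ : ∃ T : ℤ, Q.eval T ≠ 0 := by
    by_contra hcon
    push Not at hcon
    exact hQ0 (Polynomial.funext fun r => by rw [hcon r, Polynomial.eval_zero])
  refine ⟨T, fun r hr => ?_⟩
  rw [hQ, Polynomial.eval_prod] at hT
  have := (Finset.prod_ne_zero_iff.1 hT) r (Finset.mem_univ _)
  rw [if_neg hr] at this
  simpa only [q, Polynomial.eval_finset_sum, Polynomial.eval_monomial] using this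

variable {N0 : ℕ}

/-- **Linear programming duality**, with complementary slackness -/
theorem lp_dual (g : Fin N0 → Fin p → ℤ) (c : Fin N0 → ℚ) (hc : ∀ b, 0 ≤ c b) (lam : Fin p → ℚ)
    (hl : CoG g Finset.univ lam) : ∃ y : Fin p → ℚ, (∀ b, ∑ i, y i * g b i ≤ c b) ∧
      ∃ e : Fin N0 → ℚ, (∀ b, 0 ≤ e b) ∧ (∀ b, e b ≠ 0 → ∑ i, y i * g b i = c b) ∧
        ∀ i, ∑ b, e b * g b i = lam i := by
  classical
  obtain ⟨k, hk, hz⟩ := common_den c
  choose C hC using hz
  have hk0 : (0 : ℚ) < k := by exact_mod_cast hk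
  have hC0 : ∀ b, (0 : ℤ) ≤ C b := by
    intro b
    have h1 : (0 : ℚ) ≤ k * c b := mul_nonneg hk0.le (hc b)
    rw [hC b] at h1
    exact_mod_cast h1
  let G : Fin (N0 + 1) → Fin (p + 1) → ℤ := Fin.cons (Fin.cons 1 0) fun b => Fin.cons (C b) (g b)
  have hG00 : G 0 0 = 1 := rfl
  have hG0s : ∀ i : Fin p, G 0 i.succ = 0 := fun _ => rfl
  have hGs0 : ∀ b : Fin N0, G b.succ 0 = C b := fun _ => rfl
  have hGss : ∀ (b : Fin N0) (i : Fin p), G b.succ i.succ = g b i := fun _ _ => rfl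
  obtain ⟨S, A, hA⟩ := weyl G
  have ha0 : ∀ s, 0 ≤ A s 0 := by
    intro s
    have h1 := (hA _).1 (rc_gen G 0) s
    rw [Fin.sum_univ_succ] at h1
    simp only [hG00, hG0s, Int.cast_zero, mul_zero, Finset.sum_const_zero, add_zero, Int.cast_one,
      mul_one] at h1
    exact_mod_cast h1
  have hcons : ∀ (t : ℚ) s, ∑ i : Fin (p + 1), (A s i : ℝ) * ((Fin.cons t lam : Fin (p + 1) → ℚ) i : ℝ)
      = ((A s 0 * t + ∑ i : Fin p, A s i.succ * lam i : ℚ) : ℝ) := by
    intro t s
    rw [Fin.sum_univ_succ]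
    push_cast
    simp only [Fin.cons_zero, Fin.cons_succ]
  have hIQ : ∀ t : ℚ, RC G (fun i => ((Fin.cons t lam : Fin (p + 1) → ℚ) i : ℝ)) ↔
      ∀ s, 0 ≤ A s 0 * t + ∑ i : Fin p, A s i.succ * lam i := by
    intro t
    rw [hA]
    constructor
    · intro h s
      have := h s
      beta_reduce at this
      rw [hcons] at this
      exact_mod_cast this
    · intro h s
      beta_reduce
      rw [hcons]
      exact_mod_cast h s
  have hpos : ∀ t : ℚ, RC G (fun i => ((Fin.cons t lam : Fin (p + 1) → ℚ) i : ℝ)) → 0 ≤ t := by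
    intro t ht
    obtain ⟨e, he, he2⟩ := rc_rat G _ ht
    have h1 := he2 0
    rw [Fin.cons_zero, Fin.sum_univ_succ] at h1
    rw [h1, hG00]
    refine add_nonneg (by have := he 0; simpa using this) (Finset.sum_nonneg fun b _ => ?_)
    rw [hGs0]
    exact mul_nonneg (he _) (by exact_mod_cast hC0 b)
  obtain ⟨t0, ht0⟩ : ∃ t0 : ℚ, RC G (fun i => ((Fin.cons t0 lam : Fin (p + 1) → ℚ) i : ℝ)) := by
    obtain ⟨e, he0, -, he2⟩ := hl
    refine ⟨∑ b, e b * C b, fun b => (((Fin.cons 0 e : Fin (N0 + 1) → ℚ) b : ℚ) : ℝ), fun b => ?_,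
      fun i => ?_⟩
    · beta_reduce
      refine Fin.cases ?_ (fun b => ?_) b
      · simp
      · rw [Fin.cons_succ]
        exact_mod_cast he0 b
    · beta_reduce
      rw [Fin.sum_univ_succ]
      refine Fin.cases ?_ (fun i => ?_) i
      · rw [Fin.cons_zero, Fin.cons_zero]
        simp only [Fin.cons_succ, hGs0]
        push_cast
        ring
      · rw [Fin.cons_succ, Fin.cons_zero, ← he2 i]
        simp only [Fin.cons_succ, hGss]
        push_cast
        ring
  have hne : (Finset.univ.filter fun s => 0 < A s 0).Nonempty := by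
    by_contra hcon
    rw [Finset.not_nonempty_iff_eq_empty, Finset.filter_eq_empty_iff] at hcon
    have h0 : ∀ s, A s 0 = 0 := fun s => le_antisymm (not_lt.1 (hcon (Finset.mem_univ s))) (ha0 s)
    have h1 := hpos (-1) ((hIQ _).2 fun s => by
      have := (hIQ _).1 ht0 s
      rw [h0 s] at this ⊢
      simpa using this)
    linarith
  obtain ⟨s, hs, hmax⟩ := Finset.exists_max_image _
    (fun s => - (∑ i : Fin p, (A s i.succ : ℚ) * lam i) / A s 0) hne
  have hs0 : (0 : ℚ) < A s 0 := by exact_mod_cast (Finset.mem_filter.1 hs).2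
  obtain ⟨Y, hY⟩ : ∃ Y : Fin p → ℚ, Y = fun i => - (A s i.succ : ℚ) / A s 0 := ⟨_, rfl⟩
  have hYv : ∀ x : Fin p → ℚ, ∑ i, Y i * x i = - (∑ i : Fin p, (A s i.succ : ℚ) * x i) / A s 0 := by
    intro x
    rw [hY, ← Finset.sum_neg_distrib, Finset.sum_div]
    refine Finset.sum_congr rfl fun i _ => ?_
    ring
  have hfeas : ∀ b, ∑ i, Y i * g b i ≤ C b := by
    intro b
    rw [hYv, div_le_iff₀ hs0]
    have h1 := (hA _).1 (rc_gen G b.succ) s
    rw [Fin.sum_univ_succ] at h1
    simp only [hGs0, hGss] at h1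
    have h2 : (0 : ℚ) ≤ (A s 0 : ℚ) * C b + ∑ i : Fin p, (A s i.succ : ℚ) * (g b i : ℚ) := by
      exact_mod_cast h1
    linarith
  have hopt : RC G (fun i => ((Fin.cons (∑ i, Y i * lam i) lam : Fin (p + 1) → ℚ) i : ℝ)) := by
    rw [hIQ]
    intro s'
    by_cases h0 : 0 < A s' 0
    · have h1 := hmax s' (Finset.mem_filter.2 ⟨Finset.mem_univ _, h0⟩)
      have h2 : (0 : ℚ) < A s' 0 := by exact_mod_cast h0
      rw [← hYv lam, div_le_iff₀ h2] at h1
      linarith
    · have h1 : A s' 0 = 0 := le_antisymm (not_lt.1 h0) (ha0 s')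
      have h2 := (hIQ _).1 ht0 s'
      rw [h1] at h2 ⊢
      simpa using h2
  obtain ⟨e, he, he2⟩ := rc_rat G _ hopt
  have h0 := he2 0
  rw [Fin.cons_zero, Fin.sum_univ_succ, hG00] at h0
  simp only [hGs0] at h0
  have h1 : ∀ i : Fin p, lam i = ∑ b : Fin N0, e b.succ * g b i := by
    intro i
    have := he2 i.succ
    rw [Fin.cons_succ, Fin.sum_univ_succ, hG0s] at this
    simp only [hGss] at this
    rw [this]
    push_cast
    ring
  have h2 : ∑ b : Fin N0, e b.succ * (C b - ∑ i, Y i * g b i) ≤ 0 := by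
    have h3 : ∑ i, Y i * lam i = ∑ b : Fin N0, e b.succ * ∑ i, Y i * g b i := by
      simp only [Finset.mul_sum]
      rw [Finset.sum_comm]
      refine Finset.sum_congr rfl fun i _ => ?_
      rw [h1 i, Finset.mul_sum]
      exact Finset.sum_congr rfl fun b _ => by ring
    have h4 : ∑ b : Fin N0, e b.succ * (C b - ∑ i, Y i * g b i) =
        ∑ b : Fin N0, e b.succ * C b - ∑ b : Fin N0, e b.succ * ∑ i, Y i * g b i := by
      rw [← Finset.sum_sub_distrib]
      exact Finset.sum_congr rfl fun b _ => by ring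
    rw [h4, ← h3, h0]
    have h5 := he 0
    push_cast
    linarith
  have h3 : ∀ b ∈ Finset.univ, 0 ≤ e (Fin.succ b) * (C b - ∑ i, Y i * g b i) := by
    intro b _
    refine mul_nonneg (he _) ?_
    have := hfeas b
    linarith
  have h4 := (Finset.sum_eq_zero_iff_of_nonneg h3).1 (le_antisymm h2 (Finset.sum_nonneg h3))
  refine ⟨fun i => Y i / k, fun b => ?_, fun b => e b.succ, fun b => he _, fun b hb => ?_,
    fun i => (h1 i).symm⟩
  · have h5 : ∑ i, Y i / k * g b i = (∑ i, Y i * g b i) / k := by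
      rw [Finset.sum_div]
      exact Finset.sum_congr rfl fun i _ => by ring
    rw [h5, div_le_iff₀ hk0, mul_comm, hC b]
    exact hfeas b
  · have h5 : ∑ i, Y i / k * g b i = (∑ i, Y i * g b i) / k := by
      rw [Finset.sum_div]
      exact Finset.sum_congr rfl fun i _ => by ring
    have h6 := (mul_eq_zero.1 (h4 b (Finset.mem_univ b))).resolve_left hb
    rw [h5, div_eq_iff hk0.ne', mul_comm, hC b]
    linarith

/-- the point is generic: it is an interior point of all the cones which contain it -/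
def Generic (g : Fin N0 → Fin p → ℤ) (lam : Fin p → ℚ) : Prop :=
  ∃ ε : ℚ, 0 < ε ∧ ∀ B : Finset (Fin N0), CoG g B lam → ∀ μ : Fin p → ℚ,
    (∀ i, |μ i - lam i| ≤ ε) → CoG g B μ

theorem exists_generic (g : Fin N0 → Fin p → ℤ) (x : Fin p → ℚ) {ε : ℚ} (hε : 0 < ε) :
    ∃ x' : Fin p → ℚ, (∀ i, |x' i - x i| ≤ ε) ∧ Generic g x' := by
  classical
  choose S A hA using fun B : Finset (Fin N0) => weyl (gB g B)
  obtain ⟨T, hT⟩ := exists_T (ι := (B : Finset (Fin N0)) × Fin (S B)) fun r => A r.1 r.2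
  let ℓ : ((B : Finset (Fin N0)) × Fin (S B)) → (Fin p → ℚ) → ℚ := fun r y => ∑ i, (A r.1 r.2 i : ℚ) * y i
  obtain ⟨w, hw⟩ : ∃ w : Fin p → ℚ, w = fun i : Fin p => (T : ℚ) ^ (i : ℕ) := ⟨_, rfl⟩
  have hℓw : ∀ r, A r.1 r.2 ≠ 0 → ℓ r w ≠ 0 := by
    intro r hr h0
    apply hT r hr
    simp only [ℓ, hw] at h0
    exact_mod_cast h0
  obtain ⟨C, hC⟩ : ∃ C : ℚ, C = ∑ i, |w i| + 1 := ⟨_, rfl⟩
  have hC0 : 0 < C := by rw [hC]; positivity
  have hq0 : 0 < ε / C := by positivity
  obtain ⟨q, hq, hqF⟩ := (Set.Ioo_infinite hq0).exists_notMem_finset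
    (Finset.univ.image fun r => - ℓ r x / ℓ r w)
  obtain ⟨x', hx'⟩ : ∃ x' : Fin p → ℚ, x' = fun i => x i + q * w i := ⟨_, rfl⟩
  have hℓ : ∀ r, ℓ r x' = ℓ r x + q * ℓ r w := by
    intro r
    simp only [ℓ, hx', Finset.mul_sum]
    rw [← Finset.sum_add_distrib]
    exact Finset.sum_congr rfl fun i _ => by ring
  have hne : ∀ r, A r.1 r.2 ≠ 0 → ℓ r x' ≠ 0 := by
    intro r hr h0
    apply hqF
    refine Finset.mem_image.2 ⟨r, Finset.mem_univ _, ?_⟩
    rw [hℓ] at h0
    rw [div_eq_iff (hℓw r hr)]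
    linarith
  obtain ⟨D, hD⟩ : ∃ D : ((B : Finset (Fin N0)) × Fin (S B)) → ℚ,
    D = fun r => ∑ i, |(A r.1 r.2 i : ℚ)| + 1 := ⟨_, rfl⟩
  have hD0 : ∀ r, 0 < D r := by intro r; rw [hD]; positivity
  obtain ⟨ε', hε', hmin⟩ := exists_pos_le (fun r => ℓ r x' / D r) (fun r => 0 < ℓ r x')
    fun r hr => div_pos hr (hD0 r)
  refine ⟨x', fun i => ?_, ε', hε', fun B hB μ hμ => ?_⟩
  · rw [hx']
    have h1 : |w i| ≤ C := by
      rw [hC]
      have := Finset.single_le_sum (f := fun i => |w i|) (fun _ _ => abs_nonneg _)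
        (Finset.mem_univ i)
      linarith
    have h2 : x i + q * w i - x i = q * w i := by ring
    beta_reduce
    rw [h2, abs_mul, abs_of_pos hq.1]
    have h3 := hq.2.le
    rw [le_div_iff₀ hC0] at h3
    calc q * |w i| ≤ q * C := mul_le_mul_of_nonneg_left h1 hq.1.le
      _ ≤ ε := h3
  · rw [cog_iff, hA] at hB ⊢
    have hcast : ∀ (s : Fin (S B)) (y : Fin p → ℚ), ∑ i, (A B s i : ℝ) * (y i : ℝ) =
        ((ℓ ⟨B, s⟩ y : ℚ) : ℝ) := by
      intro s y
      simp only [ℓ]
      push_cast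
      rfl
    intro s
    have h1 := hB s
    beta_reduce at h1 ⊢
    rw [hcast] at h1 ⊢
    have h2 : 0 ≤ ℓ ⟨B, s⟩ x' := by exact_mod_cast h1
    by_cases h0 : A B s = 0
    · have h3 : ℓ ⟨B, s⟩ μ = 0 := by
        simp only [ℓ, h0]
        simp
      rw [h3]
      simp
    · have h3 : 0 < ℓ ⟨B, s⟩ x' := lt_of_le_of_ne h2 (Ne.symm (hne ⟨B, s⟩ h0))
      have h4 := hmin ⟨B, s⟩ h3
      rw [le_div_iff₀ (hD0 _)] at h4
      have h5 : ℓ ⟨B, s⟩ x' - ℓ ⟨B, s⟩ μ ≤ ε' * D ⟨B, s⟩ := by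
        simp only [ℓ]
        rw [← Finset.sum_sub_distrib, hD]
        calc ∑ i, ((A B s i : ℚ) * x' i - A B s i * μ i) ≤ ∑ i, |(A B s i : ℚ)| * ε' := by
              refine Finset.sum_le_sum fun i _ => ?_
              rw [← mul_sub]
              refine (le_abs_self _).trans ?_
              rw [abs_mul]
              refine mul_le_mul_of_nonneg_left ?_ (abs_nonneg _)
              rw [abs_sub_comm]
              exact hμ i
          _ = ε' * ∑ i, |(A B s i : ℚ)| := by rw [← Finset.sum_mul]; ring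
          _ ≤ ε' * (∑ i, |(A B s i : ℚ)| + 1) := by
              refine mul_le_mul_of_nonneg_left ?_ hε'.le
              linarith
      have h6 : 0 ≤ ℓ ⟨B, s⟩ μ := by linarith
      exact_mod_cast h6

end Pool.Agent.U660.MD
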