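import Pool.Agent.U660.MD.Poly
import Pool.Agent.Q57.GM.Gor

/-!
Groups of integral matrices which preserve a rational polyhedral cone: finiteness and fundamental
domains.
-/

set_option autoImplicit false
set_option linter.all false

namespace Pool.Agent.U660.MD

variable {p : ℕ}

/-- integral points of the cone -/
def IP {B : ℕ} (h : Fin B → Fin p → ℤ) (v : Fin p → ℤ) : Prop := RC h (fun i => (v i : ℝ))

theorem ip_add {B : ℕ} {h : Fin B → Fin p → ℤ} {v w : Fin p → ℤ} (hv : IP h v) (hw : IP h w) :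
    IP h (v + w) := by
  have := rc_add hv hw
  unfold IP
  convert this using 2
  rename_i i
  rw [Pi.add_apply]
  push_cast
  ring

theorem ip_zero {B : ℕ} {h : Fin B → Fin p → ℤ} : IP h 0 := by
  have := rc_zero (h := h)
  unfold IP
  convert this using 2
  simp

theorem ip_closure {B : ℕ} {h : Fin B → Fin p → ℤ} {G : Set (Fin p → ℤ)} (hG : ∀ v ∈ G, IP h v)
    {v : Fin p → ℤ} (hv : v ∈ AddSubmonoid.closure G) : IP h v := by
  induction hv using AddSubmonoid.closure_induction with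
  | mem x hx => exact hG x hx
  | zero => exact ip_zero
  | add x y _ _ hx hy => exact ip_add hx hy

/-- **Gordan** -/
theorem gordan_rc {B : ℕ} (h : Fin B → Fin p → ℤ) :
    ∃ (G : Finset (Fin p → ℤ)), (∀ v ∈ G, IP h v) ∧
      ∀ v : Fin p → ℤ, IP h v → v ∈ AddSubmonoid.closure (G : Set (Fin p → ℤ)) := by
  classical
  obtain ⟨S, A, hA⟩ := weyl h
  have hA' : ∀ v : Fin p → ℤ, IP h v ↔ ∀ s, 0 ≤ ∑ i, A s i * v i := by
    intro v
    unfold IP
    rw [hA]
    constructor
    · intro H s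
      have := H s
      beta_reduce at this
      exact_mod_cast this
    · intro H s
      have := H s
      beta_reduce
      exact_mod_cast this
  let L : ((Fin p → ℤ) × (Fin p → ℤ)) →+ ((Fin S ⊕ (Fin p ⊕ Fin p)) → ℤ) :=
    AddMonoidHom.mk' (fun y => Sum.elim (fun s => ∑ i, A s i * (y.1 i - y.2 i))
      (Sum.elim (fun i => y.1 i) fun i => y.2 i)) (by
      intro x y
      funext s
      rcases s with s | i | i
      · simp only [Sum.elim_inl, Pi.add_apply, Prod.fst_add, Prod.snd_add]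
        rw [← Finset.sum_add_distrib]
        exact Finset.sum_congr rfl fun i _ => by ring
      · simp only [Sum.elim_inr, Sum.elim_inl, Pi.add_apply, Prod.fst_add]
      · simp only [Sum.elim_inr, Pi.add_apply, Prod.snd_add])
  have hL0 : ∀ y s, L y (Sum.inl s) = ∑ i, A s i * (y.1 i - y.2 i) := fun _ _ => rfl
  have hL1 : ∀ y i, L y (Sum.inr (Sum.inl i)) = y.1 i := fun _ _ => rfl
  have hL2 : ∀ y i, L y (Sum.inr (Sum.inr i)) = y.2 i := fun _ _ => rfl
  have hL : Function.Injective L := by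
    rw [injective_iff_map_eq_zero]
    intro y hy
    refine Prod.ext (funext fun i => ?_) (funext fun i => ?_)
    · rw [← hL1 y i, hy]; rfl
    · rw [← hL2 y i, hy]; rfl
  obtain ⟨G', hG1, hG2⟩ := Pool.Agent.Q57.GM.gordan L hL
  let φ : ((Fin p → ℤ) × (Fin p → ℤ)) →+ (Fin p → ℤ) :=
    AddMonoidHom.mk' (fun y => y.1 - y.2) (by
      intro x y
      simp only [Prod.fst_add, Prod.snd_add]
      abel)
  refine ⟨G'.image φ, fun v hv => ?_, fun v hv => ?_⟩
  · obtain ⟨y, hy, rfl⟩ := Finset.mem_image.1 hv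
    rw [hA']
    intro s
    exact (hG1 y hy).2 (Sum.inl s)
  · have h1 : (fun i => max (v i) 0, fun i => max (- v i) 0) ∈
        AddSubmonoid.closure (G' : Set ((Fin p → ℤ) × (Fin p → ℤ))) := by
      refine hG2 _ fun s => ?_
      rcases s with s | i | i
      · rw [hL0]
        refine ((hA' v).1 hv s).trans (le_of_eq ?_)
        refine Finset.sum_congr rfl fun i _ => ?_
        congr 1
        change v i = max (v i) 0 - max (- v i) 0
        omega
      · rw [hL1]
        exact le_max_right _ _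
      · rw [hL2]
        exact le_max_right _ _
    have h2 : v = φ (fun i => max (v i) 0, fun i => max (- v i) 0) := by
      funext i
      change v i = max (v i) 0 - max (- v i) 0
      omega
    rw [h2, Finset.coe_image, ← AddMonoidHom.map_mclosure]
    exact AddSubmonoid.mem_map_of_mem φ h1

/-- irreducible integral points of the cone -/
def Irr {B : ℕ} (h : Fin B → Fin p → ℤ) (v : Fin p → ℤ) : Prop :=
  IP h v ∧ v ≠ 0 ∧ ∀ a b, IP h a → IP h b → a + b = v → a = 0 ∨ b = 0

theorem irr_finite {B : ℕ} (h : Fin B → Fin p → ℤ) : {v | Irr h v}.Finite := by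
  classical
  obtain ⟨G, hG1, hG2⟩ := gordan_rc h
  refine Set.Finite.subset G.finite_toSet ?_
  rintro v ⟨h1, h2, h3⟩
  have key : ∀ x ∈ AddSubmonoid.closure (G : Set (Fin p → ℤ)), IP h x ∧ (x = 0 ∨ x ∈ G ∨
      ∃ a b, IP h a ∧ IP h b ∧ a ≠ 0 ∧ b ≠ 0 ∧ a + b = x) := by
    intro x hx
    induction hx using AddSubmonoid.closure_induction with
    | mem x hx => exact ⟨hG1 x hx, Or.inr (Or.inl hx)⟩
    | zero => exact ⟨ip_zero, Or.inl rfl⟩
    | add x y _ _ hx hy =>
      refine ⟨ip_add hx.1 hy.1, ?_⟩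
      by_cases hx0 : x = 0
      · rw [hx0, zero_add]
        exact hy.2
      by_cases hy0 : y = 0
      · rw [hy0, add_zero]
        exact hx.2
      · exact Or.inr (Or.inr ⟨x, y, hx.1, hy.1, hx0, hy0, rfl⟩)
  rcases (key v (hG2 v h1)).2 with h4 | h4 | ⟨a, b, ha, hb, ha0, hb0, hab⟩
  · exact absurd h4 h2
  · exact h4
  · rcases h3 a b ha hb hab with h5 | h5
    · exact absurd h5 ha0
    · exact absurd h5 hb0

theorem split_closure (G : Finset (Fin p → ℤ)) (v : Fin p → ℤ) (a : Fin p → ℤ)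
    (ha : a ∈ AddSubmonoid.closure (G : Set (Fin p → ℤ))) :
    ∃ (n : ℕ) (a' : Fin p → ℤ), a' ∈ AddSubmonoid.closure ((G.erase v : Finset _) : Set (Fin p → ℤ)) ∧
      a = n • v + a' := by
  classical
  induction ha using AddSubmonoid.closure_induction with
  | mem x hx =>
    by_cases h0 : x = v
    · exact ⟨1, 0, zero_mem _, by rw [h0]; simp⟩
    · exact ⟨0, x, AddSubmonoid.subset_closure (Finset.mem_coe.2 (Finset.mem_erase.2 ⟨h0, hx⟩)),
        by simp⟩
  | zero => exact ⟨0, 0, zero_mem _, by simp⟩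
  | add x y _ _ hx hy =>
    obtain ⟨n, a, ha, rfl⟩ := hx
    obtain ⟨m, b, hb, rfl⟩ := hy
    exact ⟨n + m, a + b, add_mem ha hb, by rw [add_smul]; abel⟩

theorem irr_gen {B : ℕ} (h : Fin B → Fin p → ℤ)
    (hpt : ∀ v : Fin p → ℤ, IP h v → IP h (-v) → v = 0) (v : Fin p → ℤ) (hv : IP h v) :
    v ∈ AddSubmonoid.closure {v | Irr h v} := by
  classical
  obtain ⟨P, hP⟩ : ∃ P : Finset (Fin p → ℤ) → Prop, P = fun G : Finset (Fin p → ℤ) => (∀ v ∈ G, IP h v) ∧
      ∀ v : Fin p → ℤ, IP h v → v ∈ AddSubmonoid.closure (G : Set (Fin p → ℤ)) := ⟨_, rfl⟩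
  have hne : ∃ n : ℕ, ∃ G, P G ∧ G.card = n := by
    obtain ⟨G, hG⟩ := gordan_rc h
    exact ⟨G.card, G, by rw [hP]; exact hG, rfl⟩
  obtain ⟨G, hG, hGn⟩ := Nat.find_spec hne
  have hmin : ∀ G', P G' → G.card ≤ G'.card := by
    intro G' hG'
    rw [hGn]
    exact Nat.find_min' hne ⟨G', hG', rfl⟩
  rw [hP] at hG
  have herase : ∀ w ∈ G, w ∉ AddSubmonoid.closure ((G.erase w : Finset _) : Set (Fin p → ℤ)) := by
    intro w hw hcl
    have h1 : P (G.erase w) := by
      rw [hP]
      refine ⟨fun v hv => hG.1 v (Finset.mem_of_mem_erase hv), fun v hv => ?_⟩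
      have h2 : AddSubmonoid.closure (G : Set (Fin p → ℤ)) ≤
          AddSubmonoid.closure ((G.erase w : Finset _) : Set (Fin p → ℤ)) := by
        rw [AddSubmonoid.closure_le]
        intro x hx
        by_cases h0 : x = w
        · rw [h0]
          exact hcl
        · exact AddSubmonoid.subset_closure (Finset.mem_coe.2 (Finset.mem_erase.2 ⟨h0, hx⟩))
      exact h2 (hG.2 v hv)
    have h2 := hmin _ h1
    have h3 := Finset.card_erase_lt_of_mem hw
    omega
  have hirr : ∀ w ∈ G, Irr h w := by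
    intro w hw
    refine ⟨hG.1 w hw, ?_, ?_⟩
    · rintro rfl
      exact herase 0 hw (zero_mem _)
    · intro a b ha hb hab
      obtain ⟨n, a', ha', ea⟩ := split_closure G w a (hG.2 a ha)
      obtain ⟨m, b', hb', eb⟩ := split_closure G w b (hG.2 b hb)
      have hcl : ∀ x ∈ AddSubmonoid.closure ((G.erase w : Finset _) : Set (Fin p → ℤ)), IP h x :=
        fun x hx => ip_closure (fun v hv => hG.1 v (Finset.mem_of_mem_erase hv)) hx
      have hw0 : w ≠ 0 := by
        rintro rfl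
        exact herase 0 hw (zero_mem _)
      have hsm : ∀ k : ℕ, IP h (k • w) := by
        intro k
        induction k with
        | zero => simpa using ip_zero
        | succ k ih => rw [succ_nsmul]; exact ip_add ih (hG.1 w hw)
      rcases Nat.eq_zero_or_pos (n + m) with h0 | h0
      · exfalso
        have hn : n = 0 := by omega
        have hm : m = 0 := by omega
        have hmem := add_mem ha' hb'
        have hw' : a' + b' = w := by
          rw [← hab, ea, eb, hn, hm]
          simp only [zero_smul, zero_add]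
        rw [hw'] at hmem
        exact herase w hw hmem
      · obtain ⟨k, hk⟩ : ∃ k, n + m = k + 1 := ⟨n + m - 1, by omega⟩
        have h1 : k • w + a' + b' = 0 := by
          have h2 : w = (n + m) • w + a' + b' := by
            conv_lhs => rw [← hab, ea, eb]
            rw [add_smul]
            abel
          rw [hk, succ_nsmul] at h2
          have h3 : w = (k • w + a' + b') + w := by
            conv_lhs => rw [h2]
            abel
          exact add_right_cancel (b := w) (by rw [zero_add]; exact h3.symm)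
        have ha0 : a' = 0 := by
          refine hpt a' (hcl a' ha') ?_
          have : -a' = k • w + b' := by
            rw [neg_eq_iff_add_eq_zero, ← h1]
            abel
          rw [this]
          exact ip_add (hsm k) (hcl b' hb')
        have hb0 : b' = 0 := by
          refine hpt b' (hcl b' hb') ?_
          have : -b' = k • w + a' := by
            rw [neg_eq_iff_add_eq_zero, ← h1]
            abel
          rw [this]
          exact ip_add (hsm k) (hcl a' ha')
        have hk0 : k = 0 := by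
          rw [ha0, hb0, add_zero, add_zero] at h1
          by_contra hk0
          exact (smul_ne_zero hk0 hw0) h1
        rcases Nat.eq_zero_or_pos n with hn | hn
        · left
          rw [ea, ha0, hn]
          simp
        · right
          have hm : m = 0 := by omega
          rw [eb, hb0, hm]
          simp
  exact AddSubmonoid.closure_mono (fun x hx => hirr x hx) (hG.2 v hv)

/-- the action of integral matrices on real vectors -/
def act (γ : (Matrix (Fin p) (Fin p) ℤ)ˣ) (lam : Fin p → ℝ) : Fin p → ℝ :=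
  fun i => ∑ j, ((γ : Matrix (Fin p) (Fin p) ℤ) i j : ℝ) * lam j

theorem act_mul (γ γ' : (Matrix (Fin p) (Fin p) ℤ)ˣ) (lam : Fin p → ℝ) :
    act (γ * γ') lam = act γ (act γ' lam) := by
  funext i
  simp only [act, Units.val_mul, Matrix.mul_apply]
  push_cast
  simp only [Finset.sum_mul, Finset.mul_sum]
  rw [Finset.sum_comm]
  exact Finset.sum_congr rfl fun j _ => Finset.sum_congr rfl fun k _ => by ring

theorem act_one (lam : Fin p → ℝ) : act 1 lam = lam := by
  funext i
  simp only [act, Units.val_one, Matrix.one_apply]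
  rw [Finset.sum_eq_single i]
  · simp
  · intro j _ hj
    rw [if_neg (Ne.symm hj)]
    simp
  · intro hi
    exact absurd (Finset.mem_univ i) hi

theorem act_int (γ : (Matrix (Fin p) (Fin p) ℤ)ˣ) (v : Fin p → ℤ) :
    act γ (fun i => (v i : ℝ)) = fun i => (((γ : Matrix (Fin p) (Fin p) ℤ).mulVec v i : ℤ) : ℝ) := by
  funext i
  simp only [act, Matrix.mulVec, dotProduct]
  push_cast
  rfl

/-- **Finiteness.** -/
theorem finite_grp {B : ℕ} (h : Fin B → Fin p → ℤ)
    (hpt : ∀ lam : Fin p → ℝ, RC h lam → RC h (fun i => - lam i) → ∀ i, lam i = 0)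
    (lam0 : Fin p → ℝ) {ε : ℝ} (hε : 0 < ε)
    (hfull : ∀ lam : Fin p → ℝ, (∀ i, |lam i - lam0 i| ≤ ε) → RC h lam)
    (Γ : Subgroup (Matrix (Fin p) (Fin p) ℤ)ˣ)
    (hΓ : ∀ γ ∈ Γ, ∀ lam, RC h lam → RC h (act γ lam)) : Finite Γ := by
  classical
  have hpt' : ∀ v : Fin p → ℤ, IP h v → IP h (-v) → v = 0 := by
    intro v hv hv'
    funext i
    have := hpt _ hv (by
      unfold IP at hv'
      convert hv' using 2
      simp) i
    simpa using this
  have hIP : ∀ γ ∈ Γ, ∀ v, IP h v → IP h ((γ : Matrix (Fin p) (Fin p) ℤ).mulVec v) := by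
    intro γ hγ v hv
    have := hΓ γ hγ _ hv
    rw [act_int] at this
    exact this
  have hinv : ∀ (γ : (Matrix (Fin p) (Fin p) ℤ)ˣ) (v : Fin p → ℤ),
      ((γ⁻¹ : (Matrix (Fin p) (Fin p) ℤ)ˣ) : Matrix (Fin p) (Fin p) ℤ).mulVec
        ((γ : Matrix (Fin p) (Fin p) ℤ).mulVec v) = v := by
    intro γ v
    rw [Matrix.mulVec_mulVec, Units.inv_mul, Matrix.one_mulVec]
  have hinv' : ∀ (γ : (Matrix (Fin p) (Fin p) ℤ)ˣ) (v : Fin p → ℤ),
      (γ : Matrix (Fin p) (Fin p) ℤ).mulVec
        (((γ⁻¹ : (Matrix (Fin p) (Fin p) ℤ)ˣ) : Matrix (Fin p) (Fin p) ℤ).mulVec v) = v := by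
    intro γ v
    rw [Matrix.mulVec_mulVec, Units.mul_inv, Matrix.one_mulVec]
  have hirr : ∀ γ ∈ Γ, ∀ v, Irr h v → Irr h ((γ : Matrix (Fin p) (Fin p) ℤ).mulVec v) := by
    intro γ hγ v hv
    refine ⟨hIP γ hγ v hv.1, fun h0 => hv.2.1 ?_, fun a b ha hb hab => ?_⟩
    · rw [← hinv γ v, h0, Matrix.mulVec_zero]
    · have h1 := hv.2.2 _ _ (hIP γ⁻¹ (Γ.inv_mem hγ) a ha) (hIP γ⁻¹ (Γ.inv_mem hγ) b hb) (by
        rw [← Matrix.mulVec_add, hab, hinv])
      rcases h1 with h1 | h1
      · left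
        rw [← hinv' γ a, h1, Matrix.mulVec_zero]
      · right
        rw [← hinv' γ b, h1, Matrix.mulVec_zero]
  have hfin : Finite {v | Irr h v} := (irr_finite h).to_subtype
  let f : Γ → ({v | Irr h v} → {v | Irr h v}) := fun γ v =>
    ⟨(γ.1 : Matrix (Fin p) (Fin p) ℤ).mulVec v.1, hirr γ.1 γ.2 v.1 v.2⟩
  -- an interior integral point
  obtain ⟨n, hn⟩ := exists_nat_gt (2 / ε)
  have hn0 : (0 : ℝ) < n := lt_trans (by positivity) hn
  have hv0 : ∀ v : Fin p → ℤ, (∀ i, |(v i : ℝ) - n * lam0 i| ≤ 2) → IP h v := by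
    intro v hv
    have h1 : RC h (fun i => (v i : ℝ) / n) := by
      refine hfull _ fun i => ?_
      have h2 : (v i : ℝ) / n - lam0 i = ((v i : ℝ) - n * lam0 i) / n := by
        field_simp
      rw [h2, abs_div, abs_of_pos hn0, div_le_iff₀ hn0]
      refine (hv i).trans ?_
      rw [div_lt_iff₀ hε] at hn
      linarith
    have h2 := rc_smul h1 hn0.le
    unfold IP
    convert h2 using 2
    field_simp
  refine Finite.of_injective f fun γ γ' hf => ?_
  have h1 : ∀ v, Irr h v → (γ.1 : Matrix (Fin p) (Fin p) ℤ).mulVec v =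
      (γ'.1 : Matrix (Fin p) (Fin p) ℤ).mulVec v := by
    intro v hv
    have := congrFun hf ⟨v, hv⟩
    exact congrArg Subtype.val this
  have h2 : ∀ v, IP h v → (γ.1 : Matrix (Fin p) (Fin p) ℤ).mulVec v =
      (γ'.1 : Matrix (Fin p) (Fin p) ℤ).mulVec v := by
    intro v hv
    have := irr_gen h hpt' v hv
    induction this using AddSubmonoid.closure_induction with
    | mem x hx => exact h1 x hx
    | zero => rw [Matrix.mulVec_zero, Matrix.mulVec_zero]
    | add x y hx hy ihx ihy =>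
      have hx' : IP h x := ip_closure (fun v hv => hv.1) hx
      have hy' : IP h y := ip_closure (fun v hv => hv.1) hy
      rw [Matrix.mulVec_add, Matrix.mulVec_add, ihx hx', ihy hy']
  obtain ⟨v0, hv0'⟩ : ∃ v0 : Fin p → ℤ, v0 = fun i => ⌊(n : ℝ) * lam0 i⌋ := ⟨_, rfl⟩
  have h3 : ∀ i, |(v0 i : ℝ) - n * lam0 i| ≤ 1 := by
    intro i
    rw [hv0']
    have h4 := Int.floor_le ((n : ℝ) * lam0 i)
    have h5 := Int.lt_floor_add_one ((n : ℝ) * lam0 i)
    rw [abs_le]
    constructor <;> linarith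
  have h4 := h2 v0 (hv0 v0 fun i => (h3 i).trans (by norm_num))
  apply Subtype.ext
  apply Units.ext
  ext i j
  have h5 := h2 (v0 + Pi.single j 1) (hv0 _ fun i => by
    rw [Pi.add_apply]
    have h6 := h3 i
    have h7 : |(((Pi.single j (1 : ℤ) : Fin p → ℤ) i : ℤ) : ℝ)| ≤ 1 := by
      by_cases hij : i = j
      · rw [hij, Pi.single_eq_same]; simp
      · rw [Pi.single_eq_of_ne hij]; simp
    push_cast
    calc |(v0 i : ℝ) + (((Pi.single j (1 : ℤ) : Fin p → ℤ) i : ℤ) : ℝ) - n * lam0 i|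
        = |((v0 i : ℝ) - n * lam0 i) + (((Pi.single j (1 : ℤ) : Fin p → ℤ) i : ℤ) : ℝ)| := by
          congr 1; ring
      _ ≤ |(v0 i : ℝ) - n * lam0 i| + |(((Pi.single j (1 : ℤ) : Fin p → ℤ) i : ℤ) : ℝ)| :=
          abs_add_le _ _
      _ ≤ 2 := by linarith)
  rw [Matrix.mulVec_add, Matrix.mulVec_add, h4] at h5
  have h6 := add_left_cancel h5
  have h7 := congrFun h6 i
  rw [Matrix.mulVec_single_one, Matrix.mulVec_single_one] at h7
  exact h7

/-- **Fundamental domains.** -/
theorem fund_dom {B : ℕ} (h : Fin B → Fin p → ℤ)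
    (Γ : Subgroup (Matrix (Fin p) (Fin p) ℤ)ˣ) (hfin : Finite Γ)
    (hΓ : ∀ γ ∈ Γ, ∀ lam, RC h lam → RC h (act γ lam)) :
    ∃ (M : ℕ) (π : Fin M → Fin p → ℤ), (∀ lam, RC π lam → RC h lam) ∧
      (∀ lam, RC h lam → ∃ γ ∈ Γ, RC π (act γ lam)) ∧
      ∀ γ ∈ Γ, γ ≠ 1 → ∀ (lam1 : Fin p → ℝ) (ε : ℝ), 0 < ε →
        ∃ lam : Fin p → ℝ, (∀ i, |lam i - lam1 i| ≤ ε) ∧ ¬ (RC π lam ∧ RC π (act γ lam)) := by
  classical
  have hft : Fintype Γ := Fintype.ofFinite Γ
  -- the polynomials
  let D : (Matrix (Fin p) (Fin p) ℤ)ˣ → Fin p → Fin p → ℤ := fun γ i j =>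
    (γ : Matrix (Fin p) (Fin p) ℤ) i j - (1 : Matrix (Fin p) (Fin p) ℤ) i j
  have hD : ∀ γ : (Matrix (Fin p) (Fin p) ℤ)ˣ, γ ≠ 1 → ∃ i j, D γ i j ≠ 0 := by
    intro γ hγ
    by_contra hcon
    push Not at hcon
    apply hγ
    apply Units.ext
    ext i j
    have := hcon i j
    rw [Units.val_one]
    exact sub_eq_zero.1 this
  let q : (Matrix (Fin p) (Fin p) ℤ)ˣ → Fin p → Polynomial ℤ := fun γ j =>
    ∑ i : Fin p, Polynomial.monomial (i : ℕ) (D γ i j)
  have hq : ∀ γ i j, (q γ j).coeff (i : Fin p).1 = D γ i j := by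
    intro γ i j
    simp only [q, Polynomial.finset_sum_coeff, Polynomial.coeff_monomial]
    rw [Finset.sum_eq_single i]
    · simp
    · intro b _ hb
      rw [if_neg]
      intro hbi
      exact hb (Fin.ext hbi)
    · intro hi
      exact absurd (Finset.mem_univ i) hi
  have hj : ∀ γ : (Matrix (Fin p) (Fin p) ℤ)ˣ, ∃ j : Option (Fin p), γ ≠ 1 → ∃ j', j = some j' ∧
      q γ j' ≠ 0 := by
    intro γ
    by_cases hγ : γ = 1
    · exact ⟨none, fun h => absurd hγ h⟩
    · obtain ⟨i, j, hij⟩ := hD γ hγ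
      refine ⟨some j, fun _ => ⟨j, rfl, fun h0 => hij ?_⟩⟩
      rw [← hq γ i j, h0, Polynomial.coeff_zero]
  choose jj hjj using hj
  obtain ⟨Q, hQ⟩ : ∃ Q : Polynomial ℤ, Q = ∏ γ : Γ, (match jj γ.1 with
    | none => 1
    | some j => if q γ.1 j = 0 then 1 else q γ.1 j) := ⟨_, rfl⟩
  have hQ0 : Q ≠ 0 := by
    rw [hQ]
    refine Finset.prod_ne_zero_iff.2 fun γ _ => ?_
    split
    · exact one_ne_zero
    · split_ifs with h0
      · exact one_ne_zero
      · exact h0
  obtain ⟨T, hT⟩ : ∃ T : ℤ, Q.eval T ≠ 0 := by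
    by_contra hcon
    push Not at hcon
    exact hQ0 (Polynomial.funext fun r => by rw [hcon r, Polynomial.eval_zero])
  obtain ⟨A, hA⟩ : ∃ A : (Matrix (Fin p) (Fin p) ℤ)ˣ → Fin p → ℤ,
    A = fun γ j => ∑ i : Fin p, T ^ (i : ℕ) * D γ i j := ⟨_, rfl⟩
  have hAq : ∀ γ j, A γ j = (q γ j).eval T := by
    intro γ j
    rw [hA]
    simp only [q, Polynomial.eval_finset_sum, Polynomial.eval_monomial]
    exact Finset.sum_congr rfl fun i _ => by ring
  have hA0 : ∀ γ ∈ Γ, γ ≠ 1 → ∃ j, A γ j ≠ 0 := by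
    intro γ hγ hne
    obtain ⟨j, hj1, hj2⟩ := hjj γ hne
    refine ⟨j, ?_⟩
    rw [hAq]
    rw [hQ, Polynomial.eval_prod] at hT
    have := (Finset.prod_ne_zero_iff.1 hT) ⟨γ, hγ⟩ (Finset.mem_univ _)
    simp only [hj1, if_neg hj2] at this
    exact this
  -- the functional
  obtain ⟨w, hw⟩ : ∃ w : (Fin p → ℝ) → ℝ, w = fun lam => ∑ i : Fin p, (T : ℝ) ^ (i : ℕ) * lam i :=
    ⟨_, rfl⟩
  have hwA : ∀ γ lam, ∑ j, (A γ j : ℝ) * lam j = w (act γ lam) - w lam := by
    intro γ lam
    rw [hw, hA]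
    simp only [act, D]
    push_cast
    simp only [Finset.mul_sum, Finset.sum_mul]
    rw [Finset.sum_comm, ← Finset.sum_sub_distrib]
    refine Finset.sum_congr rfl fun i _ => ?_
    have h1 : (T : ℝ) ^ (i : ℕ) * lam i =
        ∑ j, (T : ℝ) ^ (i : ℕ) * (((1 : Matrix (Fin p) (Fin p) ℤ) i j : ℤ) : ℝ) * lam j := by
      rw [Finset.sum_eq_single i]
      · rw [Matrix.one_apply_eq]
        simp
      · intro j _ hj
        rw [Matrix.one_apply_ne (Ne.symm hj)]
        simp
      · intro hi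
        exact absurd (Finset.mem_univ i) hi
    rw [h1, ← Finset.sum_sub_distrib]
    exact Finset.sum_congr rfl fun j _ => by ring
  let e : Γ ≃ Fin (Fintype.card Γ) := Fintype.equivFin _
  obtain ⟨M, π, hπ⟩ := rc_inter (ι := Unit) (fun _ => h) (fun s : Fin (Fintype.card Γ) =>
    A (e.symm s).1)
  have hπ' : ∀ lam, RC π lam ↔ RC h lam ∧ ∀ γ ∈ Γ, w lam ≤ w (act γ lam) := by
    intro lam
    rw [hπ]
    constructor
    · rintro ⟨h1, h2⟩
      refine ⟨h1 (), fun γ hγ => ?_⟩
      have h3 := h2 (e ⟨γ, hγ⟩)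
      beta_reduce at h3
      rw [Equiv.symm_apply_apply, hwA] at h3
      linarith
    · rintro ⟨h1, h2⟩
      refine ⟨fun _ => h1, fun s => ?_⟩
      beta_reduce
      rw [hwA]
      have := h2 _ (e.symm s).2
      linarith
  refine ⟨M, π, fun lam hl => ((hπ' lam).1 hl).1, fun lam hl => ?_, fun γ hγ hne lam1 ε hε => ?_⟩
  · obtain ⟨γ, -, hmin⟩ := Finset.exists_min_image (Finset.univ : Finset Γ)
      (fun γ => w (act γ.1 lam)) ⟨1, Finset.mem_univ _⟩
    refine ⟨γ.1, γ.2, (hπ' _).2 ⟨hΓ _ γ.2 _ hl, fun γ' hγ' => ?_⟩⟩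
    have := hmin ⟨γ' * γ.1, Γ.mul_mem hγ' γ.2⟩ (Finset.mem_univ _)
    rw [← act_mul]
    exact this
  · obtain ⟨j, hj⟩ := hA0 γ hγ hne
    by_contra hcon
    push Not at hcon
    have h1 : ∀ lam : Fin p → ℝ, (∀ i, |lam i - lam1 i| ≤ ε) →
        ∑ j, (A γ j : ℝ) * lam j = 0 := by
      intro lam hl
      obtain ⟨h2, h3⟩ := hcon lam hl
      have h4 := ((hπ' _).1 h2).2 γ hγ
      have h5 := ((hπ' _).1 h3).2 γ⁻¹ (Γ.inv_mem hγ)
      rw [← act_mul, inv_mul_cancel, act_one] at h5
      rw [hwA]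
      linarith
    have h2 := h1 lam1 fun i => by simp [hε.le]
    have h3 := h1 (fun i => lam1 i + if i = j then ε else 0) fun i => by
      split_ifs
      · simp [abs_of_pos hε]
      · simp [hε.le]
    simp only [mul_add, Finset.sum_add_distrib, h2, zero_add, mul_ite, mul_zero] at h3
    rw [Finset.sum_ite_eq' Finset.univ j] at h3
    simp only [Finset.mem_univ, if_true] at h3
    rcases mul_eq_zero.1 h3 with h4 | h4
    · exact hj (by exact_mod_cast h4)
    · exact absurd h4 hε.ne'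

end Pool.Agent.U660.MD
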