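import Pool.Agent.Q57.HK.Small
import Pool.Agent.U660.MD.Grp

/-!
Nef cones of the small modifications, if the multigraded section ring is finitely generated.
-/

set_option autoImplicit false
set_option linter.all false
set_option maxHeartbeats 1000000

open FF MvPolynomial Pool.Agent.W603.LV Pool.Agent.W602.GT Pool.Agent.W602.Cov
open Pool.Agent.TH756.PR Pool.Agent.TH122.AB Pool.Agent.TH756.PN
open Pool.Agent.Q57.FT Pool.Agent.Q57.CX Pool.Agent.Q57.HK

namespace Pool.Agent.U660.MD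

section lin

variable {p : ℕ}

theorem common_den {ι : Type} [Fintype ι] (q : ι → ℚ) :
    ∃ k : ℕ, 1 ≤ k ∧ ∀ i, ∃ z : ℤ, (k : ℚ) * q i = z := by
  classical
  refine ⟨∏ i, (q i).den, Finset.prod_pos fun i _ => (q i).den_pos, fun i => ?_⟩
  obtain ⟨c, hc⟩ := Finset.dvd_prod_of_mem (fun i => (q i).den) (Finset.mem_univ i)
  refine ⟨c * (q i).num, ?_⟩
  rw [hc]
  push_cast
  have := Rat.mul_den_eq_num (q i)
  rw [← this]
  ring

theorem rc_approx {B : ℕ} {h : Fin B → Fin p → ℤ} {lam : Fin p → ℝ} (hl : RC h lam) {ε : ℝ}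
    (hε : 0 < ε) : ∃ q : Fin B → ℚ, (∀ b, 0 ≤ q b) ∧
      ∀ i, |((∑ b, q b * h b i : ℚ) : ℝ) - lam i| ≤ ε := by
  classical
  obtain ⟨t, ht, ht2⟩ := hl
  obtain ⟨C, hC⟩ : ∃ C : ℝ, C = ∑ b, ∑ i, |(h b i : ℝ)| + 1 := ⟨_, rfl⟩
  have hC0 : 0 < C := by rw [hC]; positivity
  have hq : ∀ b, ∃ q : ℚ, t b < q ∧ (q : ℝ) < t b + ε / C := fun b =>
    exists_rat_btwn (by have : 0 < ε / C := by positivity
                        linarith)
  choose q hq1 hq2 using hq
  refine ⟨q, fun b => ?_, fun i => ?_⟩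
  · have := (ht b).trans (hq1 b).le
    exact_mod_cast this
  · rw [ht2]
    push_cast
    rw [← Finset.sum_sub_distrib]
    calc |∑ b, ((q b : ℝ) * h b i - t b * h b i)| ≤ ∑ b, |(q b : ℝ) * h b i - t b * h b i| :=
          Finset.abs_sum_le_sum_abs _ _
      _ ≤ ∑ b, (ε / C) * |(h b i : ℝ)| := by
          refine Finset.sum_le_sum fun b _ => ?_
          rw [← sub_mul, abs_mul]
          refine mul_le_mul_of_nonneg_right ?_ (abs_nonneg _)
          rw [abs_of_nonneg (by linarith [hq1 b])]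
          linarith [hq2 b]
      _ = (ε / C) * ∑ b, |(h b i : ℝ)| := by rw [Finset.mul_sum]
      _ ≤ (ε / C) * C := by
          refine mul_le_mul_of_nonneg_left ?_ (by positivity)
          rw [hC]
          have : ∑ b, |(h b i : ℝ)| ≤ ∑ b, ∑ i, |(h b i : ℝ)| :=
            Finset.sum_le_sum fun b _ => Finset.single_le_sum (f := fun i => |(h b i : ℝ)|)
              (fun _ _ => abs_nonneg _) (Finset.mem_univ i)
          linarith
      _ = ε := by field_simp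

theorem rc_scale {B : ℕ} {h h' : Fin B → Fin p → ℤ} {c : Fin B → ℝ} (hc : ∀ b, 0 < c b)
    (hh : ∀ b i, (h' b i : ℝ) = c b * h b i) (lam : Fin p → ℝ) : RC h lam ↔ RC h' lam := by
  constructor
  · rintro ⟨t, ht, ht2⟩
    refine ⟨fun b => t b / c b, fun b => div_nonneg (ht b) (hc b).le, fun i => ?_⟩
    rw [ht2]
    refine Finset.sum_congr rfl fun b _ => ?_
    rw [hh]
    have := (hc b).ne'
    field_simp
  · rintro ⟨t, ht, ht2⟩
    refine ⟨fun b => t b * c b, fun b => mul_nonneg (ht b) (hc b).le, fun i => ?_⟩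
    rw [ht2]
    refine Finset.sum_congr rfl fun b _ => ?_
    rw [hh]
    ring

variable {N0 : ℕ}

/-- the generators in `B` -/
def gB (g : Fin N0 → Fin p → ℤ) (B : Finset (Fin N0)) : Fin N0 → Fin p → ℤ :=
  fun b i => if b ∈ B then g b i else 0

theorem cog_iff (g : Fin N0 → Fin p → ℤ) (B : Finset (Fin N0)) (μ : Fin p → ℚ) :
    CoG g B μ ↔ RC (gB g B) fun i => (μ i : ℝ) := by
  classical
  constructor
  · rintro ⟨e, he0, he1, he2⟩
    refine ⟨fun b => (e b : ℝ), fun b => by beta_reduce; exact_mod_cast he0 b, fun i => ?_⟩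
    beta_reduce
    rw [← he2 i]
    push_cast
    refine Finset.sum_congr rfl fun b _ => ?_
    unfold gB
    by_cases hb : b ∈ B
    · simp [hb]
    · rw [he1 b hb]
      simp
  · intro h
    obtain ⟨t, ht, ht2⟩ := rc_rat _ μ h
    refine ⟨fun b => if b ∈ B then t b else 0, fun b => ?_, fun b hb => if_neg hb, fun i => ?_⟩
    · beta_reduce
      split_ifs
      · exact ht b
      · exact le_rfl
    · rw [ht2 i]
      refine Finset.sum_congr rfl fun b _ => ?_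
      unfold gB
      by_cases hb : b ∈ B
      · simp [hb]
      · simp [hb]

end lin

variable {p N : ℕ} {K : Type} [Field K] [Algebra ℂ K]

/-- the real combination is a limit of semiample rational combinations -/
def NefR (N : ℕ) (δ : Fin p → Place ℂ K → ℚ) (lam : Fin p → ℝ) : Prop :=
  ∀ ε : ℝ, 0 < ε → ∃ μ : Fin p → ℚ, (∀ i, |(μ i : ℝ) - lam i| ≤ ε) ∧ SemiA N δ μ

/-! ### base point free combinations -/

theorem bpf_zero {δ : Fin p → Place ℂ K → ℚ} : Bpf N δ 0 := by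
  intro P hP
  exact ⟨1, one_ne_zero, zsec_one, by simp [P.ord_one]⟩

theorem bpf_add {δ : Fin p → Place ℂ K → ℚ} {μ ν : Fin p → ℤ} (h : Bpf N δ μ) (h' : Bpf N δ ν) :
    Bpf N δ (μ + ν) := by
  intro P hP
  obtain ⟨f, hf0, hf, hfP⟩ := h P hP
  obtain ⟨f', hf0', hf', hfP'⟩ := h' P hP
  refine ⟨f * f', mul_ne_zero hf0 hf0', zsec_mul hf hf', ?_⟩
  rw [P.ord_mul hf0 hf0']
  have h3 : ∑ i, (((μ + ν) i : ℤ) : ℚ) * δ i P = ∑ i, (μ i : ℚ) * δ i P +
      ∑ i, (ν i : ℚ) * δ i P := by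
    rw [← Finset.sum_add_distrib]
    refine Finset.sum_congr rfl fun i _ => ?_
    rw [Pi.add_apply]
    push_cast
    ring
  rw [h3]
  push_cast
  linarith

theorem bpf_nsmul {δ : Fin p → Place ℂ K → ℚ} {μ : Fin p → ℤ} (h : Bpf N δ μ) (k : ℕ) :
    Bpf N δ (k • μ) := by
  induction k with
  | zero => rw [zero_smul]; exact bpf_zero
  | succ k ih => rw [succ_nsmul]; exact bpf_add ih h

theorem zsec_congr {δ δ' : Fin p → Place ℂ K → ℚ}
    (h : ∀ P : Place ℂ K, Divisorial N P → ∀ i, δ i P = δ' i P) {μ : Fin p → ℤ} {f : K}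
    (hf : ZSec N δ μ f) : ZSec N δ' μ f := by
  intro P hP
  have := hf P hP
  have e : ∑ i, (μ i : ℚ) * δ i P = ∑ i, (μ i : ℚ) * δ' i P :=
    Finset.sum_congr rfl fun i _ => by rw [h P hP i]
  rwa [e] at this

theorem bpf_congr {δ δ' : Fin p → Place ℂ K → ℚ}
    (h : ∀ P : Place ℂ K, Divisorial N P → ∀ i, δ i P = δ' i P) {μ : Fin p → ℤ}
    (hf : Bpf N δ μ) : Bpf N δ' μ := by
  intro P hP
  obtain ⟨f, hf0, hf1, hf2⟩ := hf P hP
  have e : ∑ i, (μ i : ℚ) * δ i P = ∑ i, (μ i : ℚ) * δ' i P :=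
    Finset.sum_congr rfl fun i _ => by rw [h P hP i]
  exact ⟨f, hf0, zsec_congr h hf1, by rwa [e] at hf2⟩

theorem semi_congr {δ δ' : Fin p → Place ℂ K → ℚ}
    (h : ∀ P : Place ℂ K, Divisorial N P → ∀ i, δ i P = δ' i P) {μ : Fin p → ℚ}
    (hf : SemiA N δ μ) : SemiA N δ' μ := by
  obtain ⟨k, hk, ν, hν, hb⟩ := hf
  exact ⟨k, hk, ν, hν, bpf_congr h hb⟩

theorem nef_congr {δ δ' : Fin p → Place ℂ K → ℚ}
    (h : ∀ P : Place ℂ K, Divisorial N P → ∀ i, δ i P = δ' i P) {lam : Fin p → ℝ}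
    (hf : NefR N δ lam) : NefR N δ' lam := by
  intro ε hε
  obtain ⟨μ, h1, h2⟩ := hf ε hε
  exact ⟨μ, h1, semi_congr h h2⟩

section

variable {N0 : ℕ} {g : Fin N0 → Fin p → ℤ} {f : Fin N0 → K} {δ : Fin p → Place ℂ K → ℚ}

/-- **The criterion for semiampleness.** -/
theorem semi_of_cog (hgen : ∀ b, f b ≠ 0 ∧ ZSec N δ (g b) (f b)) {δ' : Fin p → Place ℂ K → ℚ}
    (hsub : ∀ μ η, ZSec N δ μ η → ZSec N δ' μ η) {μ : Fin p → ℚ}
    (H : ∀ P : Place ℂ K, Divisorial N P → CoG g (tig g f δ' P) μ) : SemiA N δ' μ := by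
  classical
  have he : ∀ B : Finset (Fin N0), ∃ e : Fin N0 → ℚ, CoG g B μ → (∀ b, 0 ≤ e b) ∧
      (∀ b, b ∉ B → e b = 0) ∧ ∀ i, ∑ b, e b * g b i = μ i := by
    intro B
    by_cases hB : CoG g B μ
    · obtain ⟨e, he⟩ := hB
      exact ⟨e, fun _ => he⟩
    · exact ⟨0, fun h => absurd h hB⟩
  choose e he using he
  obtain ⟨k, hk, hz⟩ := common_den (ι := Fin p ⊕ (Finset (Fin N0) × Fin N0))
    (Sum.elim μ fun x => e x.1 x.2)
  choose zz hzz using hz
  refine ⟨k, hk, fun i => zz (Sum.inl i), fun i => hzz (Sum.inl i), fun P hP => ?_⟩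
  obtain ⟨B, hBdef⟩ : ∃ B, B = tig g f δ' P := ⟨_, rfl⟩
  have hB := he B (by rw [hBdef]; exact H P hP)
  obtain ⟨n, hndef⟩ : ∃ n : Fin N0 → ℕ, n = fun b => (zz (Sum.inr (B, b))).toNat := ⟨_, rfl⟩
  have hn : ∀ b, (n b : ℚ) = k * e B b := by
    intro b
    have h1 : (k : ℚ) * e B b = zz (Sum.inr (B, b)) := hzz (Sum.inr (B, b))
    have h2 : (0 : ℤ) ≤ zz (Sum.inr (B, b)) := by
      have h3 : (0 : ℚ) ≤ (k : ℚ) * e B b := mul_nonneg (by positivity) (hB.1 b)
      rw [h1] at h3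
      exact_mod_cast h3
    rw [h1, hndef]
    beta_reduce
    have h4 := Int.toNat_of_nonneg h2
    exact_mod_cast h4
  have hν : ∑ b, n b • g b = fun i => zz (Sum.inl i) := by
    funext i
    have h1 : (((∑ b, n b • g b) i : ℤ) : ℚ) = ((zz (Sum.inl i) : ℤ) : ℚ) := by
      rw [Finset.sum_apply]
      push_cast
      have h2 : (k : ℚ) * μ i = zz (Sum.inl i) := hzz (Sum.inl i)
      rw [← h2, ← hB.2.2 i, Finset.mul_sum]
      refine Finset.sum_congr rfl fun b _ => ?_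
      rw [Pi.smul_apply, nsmul_eq_mul]
      push_cast
      rw [hn b]
      ring
    exact_mod_cast h1
  refine ⟨∏ b, f b ^ n b, Finset.prod_ne_zero_iff.2 fun b _ => pow_ne_zero _ (hgen b).1,
    hsub _ _ (by rw [← hν]; exact zsec_prod (fun b => (hgen b).2) n), le_of_eq ?_⟩
  rw [ord_prod' P Finset.univ _ fun b _ => pow_ne_zero _ (hgen b).1]
  have h1 : ∑ i, ((zz (Sum.inl i) : ℤ) : ℚ) * δ' i P = ∑ b, (n b : ℚ) *
      ∑ i, (g b i : ℚ) * δ' i P := by
    simp only [Finset.mul_sum]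
    rw [Finset.sum_comm]
    refine Finset.sum_congr rfl fun i _ => ?_
    rw [← congrFun hν i, Finset.sum_apply]
    push_cast
    rw [Finset.sum_mul]
    refine Finset.sum_congr rfl fun b _ => ?_
    rw [Pi.smul_apply, nsmul_eq_mul]
    push_cast
    ring
  rw [h1, ← Finset.sum_neg_distrib]
  push_cast
  refine Finset.sum_congr rfl fun b _ => ?_
  rw [P.ord_pow]
  push_cast
  by_cases hb : b ∈ B
  · rw [hBdef] at hb
    unfold tig at hb
    have h2 := (Finset.mem_filter.1 hb).2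
    rw [h2]
    ring
  · have h2 : (n b : ℚ) = 0 := by rw [hn b, hB.2.1 b hb, mul_zero]
    rw [h2]
    ring

variable (hgen : (∀ b, f b ≠ 0 ∧ ZSec N δ (g b) (f b)) ∧
      ∀ (μ : Fin p → ℤ) (η : K), η ≠ 0 → ZSec N δ μ η → ∀ P : Place ℂ K, Mnl g f P μ η)

include hgen

/-- **The nef cone of a small modification.** -/
theorem nef_cone {δ' : Fin p → Place ℂ K → ℚ} {lam0 : Fin p → ℚ} (h : Small N δ δ' lam0) :
    ∃ (Bn : ℕ) (h : Fin Bn → Fin p → ℤ), (∀ b, Bpf N δ' (h b)) ∧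
      (∀ μ : Fin p → ℚ, SemiA N δ' μ ↔ RC h fun i => (μ i : ℝ)) ∧
      ∀ lam : Fin p → ℝ, NefR N δ' lam ↔ RC h lam := by
  classical
  obtain ⟨T, hT⟩ : ∃ T : Finset (Finset (Fin N0)), T = Finset.univ.filter fun B =>
    ∃ P : Place ℂ K, Divisorial N P ∧ tig g f δ' P = B := ⟨_, rfl⟩
  have hTm : ∀ B, B ∈ T ↔ ∃ P : Place ℂ K, Divisorial N P ∧ tig g f δ' P = B := by
    intro B
    rw [hT, Finset.mem_filter]
    exact ⟨fun h => h.2, fun h => ⟨Finset.mem_univ _, h⟩⟩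
  obtain ⟨Bn, h', hh⟩ := rc_inter (ι := {B // B ∈ T}) (fun k => gB g k.1)
    (fun s : Fin 0 => s.elim0)
  have key : ∀ μ : Fin p → ℚ, SemiA N δ' μ ↔ RC h' fun i => (μ i : ℝ) := by
    intro μ
    rw [hh]
    constructor
    · intro hμ
      refine ⟨fun k => ?_, fun s => s.elim0⟩
      obtain ⟨P, hP, hPB⟩ := (hTm _).1 k.2
      rw [← hPB, ← cog_iff]
      exact mem_tig hgen h hP hμ
    · rintro ⟨h1, -⟩
      refine semi_of_cog hgen.1 (fun μ η hη => (h.1 μ η).1 hη) fun P hP => ?_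
      rw [cog_iff]
      exact h1 ⟨tig g f δ' P, (hTm _).2 ⟨P, hP, rfl⟩⟩
  have hsemi : ∀ b, SemiA N δ' fun i => ((h' b i : ℤ) : ℚ) := by
    intro b
    rw [key]
    have := rc_gen h' b
    convert this using 2
    push_cast
    rfl
  choose k hk ν hν hb using hsemi
  have hsc : ∀ lam, RC h' lam ↔ RC ν lam := rc_scale (c := fun b => (k b : ℝ))
    (fun b => by have := hk b; positivity) (fun b i => by
      have := hν b i
      beta_reduce at this
      have h2 : (((k b : ℚ) * ((h' b i : ℤ) : ℚ) : ℚ) : ℝ) = (((ν b i : ℤ) : ℚ) : ℝ) := by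
        rw [this]
      push_cast at h2
      exact h2.symm)
  refine ⟨Bn, ν, hb, fun μ => by rw [key, hsc], fun lam => ⟨fun hl => ?_, fun hl => ?_⟩⟩
  · refine rc_closed _ _ fun ε hε => ?_
    obtain ⟨μ, h1, h2⟩ := hl ε hε
    exact ⟨fun i => (μ i : ℝ), h1, (hsc _).1 ((key μ).1 h2)⟩
  · intro ε hε
    obtain ⟨q, hq, hq2⟩ := rc_approx hl hε
    refine ⟨fun i => ∑ b, q b * ν b i, hq2, (key _).2 ((hsc _).2 ?_)⟩
    refine ⟨fun b => (q b : ℝ), fun b => by beta_reduce; exact_mod_cast hq b, fun i => ?_⟩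
    push_cast
    rfl

/-- **Representatives of the small modifications.** -/
theorem small_reps : ∃ (M : ℕ) (δs : Fin M → Fin p → Place ℂ K → ℚ),
    (∀ j, ∃ lam, Small N δ (δs j) lam) ∧
    ∀ δ' : Fin p → Place ℂ K → ℚ, (∃ lam, Small N δ δ' lam) →
      ∃ j, ∀ P : Place ℂ K, Divisorial N P → ∀ i, δ' i P = δs j i P := by
  classical
  let X := {τ : Finset (Finset (Fin N0)) // ∃ (δ' : Fin p → Place ℂ K → ℚ) (lam : Fin p → ℚ),
    Small N δ δ' lam ∧ sig g lam = τ}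
  have hX : Fintype X := Fintype.ofFinite X
  let e : X ≃ Fin (Fintype.card X) := Fintype.equivFin X
  choose δc lamc hc using fun x : X => x.2
  refine ⟨Fintype.card X, fun j => δc (e.symm j), fun j => ⟨_, (hc _).1⟩, ?_⟩
  rintro δ' ⟨lam, hl⟩
  refine ⟨e ⟨sig g lam, δ', lam, hl, rfl⟩, fun P hP i => ?_⟩
  beta_reduce
  rw [Equiv.symm_apply_apply]
  exact eq_of_sig hgen hl (hc _).1 (hc ⟨sig g lam, δ', lam, hl, rfl⟩).2.symm hP i

/-- **Nef integral combinations have base point free multiples**, with one multiple. -/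
theorem uniform_bpf : ∃ k : ℕ, 1 ≤ k ∧ ∀ δ' : Fin p → Place ℂ K → ℚ,
    (∃ lam, Small N δ δ' lam) → ∀ ν : Fin p → ℤ, NefR N δ' (fun i => (ν i : ℝ)) →
      Bpf N δ' (k • ν) := by
  classical
  obtain ⟨M, δs, hs1, hs2⟩ := small_reps hgen
  choose lam0 hlam0 using hs1
  choose Bn h hb hsemi hnef using fun j => nef_cone hgen (hlam0 j)
  choose G hG1 hG2 using fun j => gordan_rc (h j)
  have hk : ∀ (j : Fin M) (v : Fin p → ℤ), ∃ k : ℕ, 1 ≤ k ∧ (v ∈ G j → Bpf N (δs j) (k • v)) := by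
    intro j v
    by_cases hv : v ∈ G j
    · have h1 : SemiA N (δs j) fun i => ((v i : ℤ) : ℚ) := by
        rw [hsemi]
        have := hG1 j v hv
        unfold IP at this
        convert this using 2
        push_cast
        rfl
      obtain ⟨k, hk, ν, hν, hbν⟩ := h1
      refine ⟨k, hk, fun _ => ?_⟩
      have h2 : k • v = ν := by
        funext i
        have h3 := hν i
        beta_reduce at h3
        rw [Pi.smul_apply, nsmul_eq_mul]
        exact_mod_cast h3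
      rw [h2]
      exact hbν
    · exact ⟨1, le_rfl, fun h => absurd h hv⟩
  choose k hk1 hk2 using hk
  refine ⟨∏ j, ∏ v ∈ G j, k j v, Nat.one_le_iff_ne_zero.2 (Finset.prod_ne_zero_iff.2 fun j _ =>
    Finset.prod_ne_zero_iff.2 fun v _ => by have := hk1 j v; omega), ?_⟩
  intro δ' hδ' ν hν
  obtain ⟨j, hj⟩ := hs2 δ' hδ'
  refine bpf_congr (fun P hP i => (hj P hP i).symm) ?_
  have h1 : NefR N (δs j) fun i => (ν i : ℝ) := nef_congr hj hν
  have h2 := hG2 j ν ((hnef j _).1 h1)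
  obtain ⟨c, hc⟩ := Finset.dvd_prod_of_mem (fun j => ∏ v ∈ G j, k j v) (Finset.mem_univ j)
  rw [hc]
  beta_reduce
  rw [mul_comm, mul_smul]
  refine bpf_nsmul ?_ c
  clear h1 hν
  induction h2 using AddSubmonoid.closure_induction with
  | mem x hx =>
    obtain ⟨c', hc'⟩ := Finset.dvd_prod_of_mem (fun v => k j v) hx
    rw [hc']
    beta_reduce
    rw [mul_comm, mul_smul]
    exact bpf_nsmul (hk2 j x hx) c'
  | zero => rw [smul_zero]; exact bpf_zero
  | add x y _ _ hx hy => rw [smul_add]; exact bpf_add (hx) (hy)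

end

end Pool.Agent.U660.MD
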