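import Pool.Agent.U660.MD.Gen

/-!
The movable cone is the union of the nef cones of the small modifications, if the multigraded section
ring is finitely generated.
-/

set_option autoImplicit false
set_option linter.all false
set_option maxHeartbeats 1000000

open FF MvPolynomial Pool.Agent.W603.LV Pool.Agent.W602.GT Pool.Agent.W602.Cov
open Pool.Agent.TH756.PR Pool.Agent.TH122.AB Pool.Agent.TH756.PN
open Pool.Agent.Q57.FT Pool.Agent.Q57.CX Pool.Agent.Q57.HK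

namespace Pool.Agent.U660.MD

variable {p N : ℕ} {K : Type} [Field K] [Algebra ℂ K]

/-- the integral combination has a section, and its linear system has no fixed divisor -/
def Mob (N : ℕ) (δ : Fin p → Place ℂ K → ℚ) (ν : Fin p → ℤ) : Prop :=
  (∃ s : K, s ≠ 0 ∧ ZSec N δ ν s) ∧
    ∀ (μ : Fin p → ℤ) (η : K), (∀ s, ZSec N δ ν s → ZSec N δ (μ + ν) (η * s)) → ZSec N δ μ η

/-- a multiple of the rational combination is mobile -/
def MobA (N : ℕ) (δ : Fin p → Place ℂ K → ℚ) (μ : Fin p → ℚ) : Prop :=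
  ∃ k : ℕ, 1 ≤ k ∧ ∃ ν : Fin p → ℤ, (∀ i, (k : ℚ) * μ i = ν i) ∧ Mob N δ ν

/-- the closure of the cone of the mobile combinations -/
def MovR (N : ℕ) (δ : Fin p → Place ℂ K → ℚ) (lam : Fin p → ℝ) : Prop :=
  ∀ ε : ℝ, 0 < ε → ∃ μ : Fin p → ℚ, (∀ i, |(μ i : ℝ) - lam i| ≤ ε) ∧ MobA N δ μ

variable {δ : Fin p → Place ℂ K → ℚ}

theorem mob_zero : Mob N δ 0 := by
  refine ⟨⟨1, one_ne_zero, zsec_one⟩, fun μ η h => ?_⟩
  have := h 1 zsec_one
  rwa [add_zero, mul_one] at this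

theorem mob_add {ν ν' : Fin p → ℤ} (h : Mob N δ ν) (h' : Mob N δ ν') : Mob N δ (ν + ν') := by
  obtain ⟨⟨s, hs0, hs⟩, h1⟩ := h
  obtain ⟨⟨s', hs0', hs'⟩, h2⟩ := h'
  refine ⟨⟨s * s', mul_ne_zero hs0 hs0', zsec_mul hs hs'⟩, fun μ η H => h2 μ η fun t' ht' =>
    h1 (μ + ν') (η * t') fun t ht => ?_⟩
  have := H (t * t') (zsec_mul ht ht')
  have e1 : μ + (ν + ν') = μ + ν' + ν := by abel
  have e2 : η * (t * t') = η * t' * t := by ring
  rwa [e1, e2] at this

theorem mob_nsmul {ν : Fin p → ℤ} (h : Mob N δ ν) (k : ℕ) : Mob N δ (k • ν) := by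
  induction k with
  | zero => rw [zero_smul]; exact mob_zero
  | succ k ih => rw [succ_nsmul]; exact mob_add ih h

theorem mob_sum {B : ℕ} {h : Fin B → Fin p → ℤ} (hm : ∀ b, Mob N δ (h b)) (n : Fin B → ℕ) :
    Mob N δ (∑ b, n b • h b) := by
  classical
  have key : ∀ s : Finset (Fin B), Mob N δ (∑ b ∈ s, n b • h b) := by
    intro s
    induction s using Finset.induction_on with
    | empty => simpa using mob_zero (N := N) (δ := δ)
    | insert b s hb ih =>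
      rw [Finset.sum_insert hb]
      exact mob_add (mob_nsmul (hm b) _) ih
  exact key Finset.univ

theorem mobA_comb {B : ℕ} {h : Fin B → Fin p → ℤ} (hm : ∀ b, Mob N δ (h b)) {q : Fin B → ℚ}
    (hq : ∀ b, 0 ≤ q b) : MobA N δ fun i => ∑ b, q b * h b i := by
  classical
  obtain ⟨k, hk, hz⟩ := common_den q
  choose z hz using hz
  have hz0 : ∀ b, 0 ≤ z b := by
    intro b
    have h1 : (0 : ℚ) ≤ k * q b := mul_nonneg (by positivity) (hq b)
    rw [hz b] at h1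
    exact_mod_cast h1
  refine ⟨k, hk, ∑ b, (z b).toNat • h b, fun i => ?_, mob_sum hm _⟩
  rw [Finset.sum_apply, Finset.mul_sum]
  push_cast
  refine Finset.sum_congr rfl fun b _ => ?_
  rw [Pi.smul_apply, nsmul_eq_mul]
  push_cast
  have h1 : (((z b).toNat : ℤ) : ℚ) = z b := by rw [Int.toNat_of_nonneg (hz0 b)]
  have h2 : (((z b).toNat : ℕ) : ℚ) = z b := by exact_mod_cast h1
  rw [h2, ← hz b]
  ring

theorem mobA_add {μ μ' : Fin p → ℚ} (h : MobA N δ μ) (h' : MobA N δ μ') :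
    MobA N δ fun i => μ i + μ' i := by
  obtain ⟨k, hk, ν, hν, hm⟩ := h
  obtain ⟨k', hk', ν', hν', hm'⟩ := h'
  refine ⟨k * k', Nat.one_le_iff_ne_zero.2 (mul_ne_zero (by omega) (by omega)), k' • ν + k • ν',
    fun i => ?_, mob_add (mob_nsmul hm k') (mob_nsmul hm' k)⟩
  rw [Pi.add_apply, Pi.smul_apply, Pi.smul_apply, nsmul_eq_mul, nsmul_eq_mul]
  push_cast
  rw [← hν, ← hν']
  ring

theorem mobA_smul {μ : Fin p → ℚ} (h : MobA N δ μ) {q : ℚ} (hq : 0 ≤ q) :
    MobA N δ fun i => q * μ i := by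
  obtain ⟨k, hk, ν, hν, hm⟩ := h
  refine ⟨q.den * k, Nat.one_le_iff_ne_zero.2 (mul_ne_zero q.den_nz (by omega)),
    q.num.toNat • ν, fun i => ?_, mob_nsmul hm _⟩
  rw [Pi.smul_apply, nsmul_eq_mul]
  push_cast
  have h1 : (((q.num).toNat : ℤ) : ℚ) = q.num := by
    rw [Int.toNat_of_nonneg (Rat.num_nonneg.2 hq)]
  have h2 : (((q.num).toNat : ℕ) : ℚ) = q.num := by exact_mod_cast h1
  rw [h2, ← hν i, ← Rat.mul_den_eq_num q]
  ring

/-- **Base point free combinations on small modifications are mobile.** -/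
theorem mob_of_bpf {δ' : Fin p → Place ℂ K → ℚ} (hs : ∀ μ f, ZSec N δ μ f ↔ ZSec N δ' μ f)
    {ν : Fin p → ℤ} (hb : Bpf N δ' ν) : Mob N δ ν := by
  refine ⟨?_, fun μ η H => (hs μ η).2 fun P hP => ?_⟩
  · by_cases hex : ∃ P : Place ℂ K, Divisorial N P
    · obtain ⟨P, hP⟩ := hex
      obtain ⟨f, hf0, hf, -⟩ := hb P hP
      exact ⟨f, hf0, (hs _ _).2 hf⟩
    · exact ⟨1, one_ne_zero, fun P hP => absurd ⟨P, hP⟩ hex⟩
  · by_cases hη : η = 0
    · exact Or.inl hη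
    · right
      obtain ⟨s, hs0, hsec, hsP⟩ := hb P hP
      have h1 := (hs _ _).1 (H s ((hs _ _).2 hsec)) P hP
      have h2 := h1.resolve_left (mul_ne_zero hη hs0)
      rw [P.ord_mul hη hs0] at h2
      have h3 : ∑ i, (((μ + ν) i : ℤ) : ℚ) * δ' i P = ∑ i, (μ i : ℚ) * δ' i P +
          ∑ i, (ν i : ℚ) * δ' i P := by
        rw [← Finset.sum_add_distrib]
        refine Finset.sum_congr rfl fun i _ => ?_
        rw [Pi.add_apply]
        push_cast
        ring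
      rw [h3] at h2
      push_cast at h2
      linarith

theorem mobA_of_semi {δ' : Fin p → Place ℂ K → ℚ} (hs : ∀ μ f, ZSec N δ μ f ↔ ZSec N δ' μ f)
    {μ : Fin p → ℚ} (hb : SemiA N δ' μ) : MobA N δ μ := by
  obtain ⟨k, hk, ν, hν, h⟩ := hb
  exact ⟨k, hk, ν, hν, mob_of_bpf hs h⟩

section

variable {N0 : ℕ} {g : Fin N0 → Fin p → ℤ} {f : Fin N0 → K}

variable (hgen : (∀ b, f b ≠ 0 ∧ ZSec N δ (g b) (f b)) ∧
      ∀ (μ : Fin p → ℤ) (η : K), η ≠ 0 → ZSec N δ μ η → ∀ P : Place ℂ K, Mnl g f P μ η)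

include hgen

/-- **A small modification on which a generic mobile combination is ample.** -/
theorem exists_small {lam : Fin p → ℚ} (hm : MobA N δ lam) (hG : Generic g lam) :
    ∃ δ' : Fin p → Place ℂ K → ℚ, Small N δ δ' lam := by
  classical
  by_cases hex : ∃ P : Place ℂ K, Divisorial N P
  swap
  · refine ⟨δ, fun _ _ => Iff.rfl, 1, one_pos, fun μ _ => ?_⟩
    obtain ⟨k, hk, hz⟩ := common_den μ
    choose z hz using hz
    exact ⟨k, hk, z, hz, fun P hP => absurd ⟨P, hP⟩ hex⟩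
  obtain ⟨P0, hP0⟩ := hex
  obtain ⟨k0, hk0, ν0, hν0, hmob⟩ := hm
  have hk0' : (0 : ℚ) < k0 := by exact_mod_cast hk0
  have hlu : CoG g Finset.univ lam := by
    obtain ⟨⟨s, hs0, hs⟩, -⟩ := hmob
    obtain ⟨e, he1, -⟩ := hgen.2 ν0 s hs0 hs P0
    refine ⟨fun b => (e b : ℚ) / k0, fun b => by positivity, fun b hb =>
      absurd (Finset.mem_univ b) hb, fun i => ?_⟩
    have h1 : (k0 : ℚ) * lam i = ∑ b, (e b : ℚ) * g b i := by
      rw [hν0 i, ← he1 i]
      push_cast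
      rfl
    have h2 : ∑ b, (e b : ℚ) / k0 * g b i = (∑ b, (e b : ℚ) * g b i) / k0 := by
      rw [Finset.sum_div]
      exact Finset.sum_congr rfl fun b _ => by ring
    rw [h2, ← h1]
    field_simp
  obtain ⟨c, hc⟩ : ∃ c : Place ℂ K → Fin N0 → ℚ,
    c = fun P b => (P.ord (f b) : ℚ) + ∑ i, (g b i : ℚ) * δ i P := ⟨_, rfl⟩
  have hc0 : ∀ P, Divisorial N P → ∀ b, 0 ≤ c P b := by
    intro P hP b
    have h1 := ((hgen.1 b).2 P hP).resolve_left (hgen.1 b).1
    rw [hc]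
    beta_reduce
    linarith
  have hy : ∀ P : Place ℂ K, ∃ y : Fin p → ℚ, Divisorial N P →
      (∀ b, ∑ i, y i * g b i ≤ c P b) ∧ ∃ e : Fin N0 → ℚ, (∀ b, 0 ≤ e b) ∧
        (∀ b, e b ≠ 0 → ∑ i, y i * g b i = c P b) ∧ ∀ i, ∑ b, e b * g b i = lam i := by
    intro P
    by_cases hP : Divisorial N P
    · obtain ⟨y, h1, h2⟩ := lp_dual g (c P) (hc0 P hP) lam hlu
      exact ⟨y, fun _ => ⟨h1, h2⟩⟩
    · exact ⟨0, fun h => absurd h hP⟩
  choose y hy using hy
  obtain ⟨δ', hδ'⟩ : ∃ δ' : Fin p → Place ℂ K → ℚ, δ' = fun i P => δ i P - y P i := ⟨_, rfl⟩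
  obtain ⟨BP, hBP⟩ : ∃ BP : Place ℂ K → Finset (Fin N0), BP = fun P =>
    Finset.univ.filter fun b => ∑ i, y P i * g b i = c P b := ⟨_, rfl⟩
  have hBPm : ∀ P b, b ∈ BP P ↔ ∑ i, y P i * g b i = c P b := by
    intro P b
    rw [hBP]
    simp
  have hsum : ∀ (x : Fin p → ℚ) P, ∑ i, x i * δ' i P = ∑ i, x i * δ i P - ∑ i, y P i * x i := by
    intro x P
    rw [hδ', ← Finset.sum_sub_distrib]
    exact Finset.sum_congr rfl fun i _ => by ring
  -- (1) sections of `δ` are sections of `δ'`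
  have hsub : ∀ μ η, ZSec N δ μ η → ZSec N δ' μ η := by
    intro μ η hη P hP
    by_cases h0 : η = 0
    · exact Or.inl h0
    right
    obtain ⟨e, he1, he2⟩ := hgen.2 μ η h0 hη P
    rw [hsum]
    have h1 : ∑ i, y P i * (μ i : ℚ) = ∑ b, (e b : ℚ) * ∑ i, y P i * g b i := by
      simp only [Finset.mul_sum]
      rw [Finset.sum_comm]
      refine Finset.sum_congr rfl fun i _ => ?_
      rw [← he1 i]
      push_cast
      rw [Finset.mul_sum]
      exact Finset.sum_congr rfl fun b _ => by ring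
    have h2 : ∑ i, (μ i : ℚ) * δ i P = ∑ b, (e b : ℚ) * ∑ i, (g b i : ℚ) * δ i P := by
      simp only [Finset.mul_sum]
      rw [Finset.sum_comm]
      refine Finset.sum_congr rfl fun i _ => ?_
      rw [← he1 i]
      push_cast
      rw [Finset.sum_mul]
      exact Finset.sum_congr rfl fun b _ => by ring
    have h3 : ∑ b, (e b : ℚ) * ∑ i, y P i * g b i ≤ ∑ b, (e b : ℚ) * c P b :=
      Finset.sum_le_sum fun b _ => mul_le_mul_of_nonneg_left ((hy P hP).1 b) (by positivity)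
    have h4 : ∑ b, (e b : ℚ) * c P b = ((∑ b, (e b : ℤ) * P.ord (f b) : ℤ) : ℚ) +
        ∑ i, (μ i : ℚ) * δ i P := by
      rw [h2, hc]
      push_cast
      rw [← Finset.sum_add_distrib]
      exact Finset.sum_congr rfl fun b _ => by ring
    have h5 : ((∑ b, (e b : ℤ) * P.ord (f b) : ℤ) : ℚ) ≤ (P.ord η : ℚ) := by exact_mod_cast he2
    linarith
  -- (2) semiample combinations near `lam`
  obtain ⟨ε, hε, hGε⟩ := hG
  have hBPlam : ∀ P, Divisorial N P → CoG g (BP P) lam := by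
    intro P hP
    obtain ⟨e, he0, he1, he2⟩ := (hy P hP).2
    refine ⟨e, he0, fun b hb => ?_, he2⟩
    by_contra hne
    exact hb ((hBPm P b).2 (he1 b hne))
  have hsub2 : ∀ P, BP P ⊆ tig g f δ' P := by
    intro P b hb
    rw [hBPm] at hb
    unfold tig
    rw [Finset.mem_filter]
    refine ⟨Finset.mem_univ _, ?_⟩
    rw [hsum, hb, hc]
    ring
  have hmono : ∀ (B B' : Finset (Fin N0)) (μ : Fin p → ℚ), B ⊆ B' → CoG g B μ → CoG g B' μ := by
    rintro B B' μ hBB ⟨e, he0, he1, he2⟩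
    exact ⟨e, he0, fun b hb => he1 b fun h => hb (hBB h), he2⟩
  have hcog : ∀ P, Divisorial N P → ∀ μ : Fin p → ℚ, (∀ i, |μ i - lam i| ≤ ε) → CoG g (BP P) μ :=
    fun P hP μ hμ => hGε _ (hBPlam P hP) μ hμ
  refine ⟨δ', fun μ η => ⟨hsub μ η, fun hη => ?_⟩, ε, hε, fun μ hμ => ?_⟩
  swap
  · exact semi_of_cog hgen.1 hsub fun P hP => hmono _ _ _ (hsub2 P) (hcog P hP μ hμ)
  -- (3) sections of `δ'` are sections of `δ`
  obtain ⟨n, hn⟩ := exists_nat_gt ((∑ i, |(μ i : ℚ)|) / ε)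
  obtain ⟨n', hn'⟩ : ∃ n', n' = n + 1 := ⟨_, rfl⟩
  have hn0 : (0 : ℚ) < n' := by rw [hn']; positivity
  have hm' := mob_nsmul hmob n'
  refine hm'.2 μ η fun s hs => ?_
  have h1 := zsec_mul hη (hsub _ _ hs)
  intro P hP
  refine (h1 P hP).imp id fun h2 => ?_
  rw [hsum] at h2
  obtain ⟨x, hx⟩ : ∃ x : Fin p → ℚ, x = fun i => (((μ + n' • ν0) i : ℤ) : ℚ) := ⟨_, rfl⟩
  have h3 : 0 ≤ ∑ i, y P i * x i := by
    have h4 : CoG g (BP P) fun i => x i / (n' * k0) := by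
      refine hcog P hP _ fun i => ?_
      rw [hx]
      beta_reduce
      rw [Pi.add_apply, Pi.smul_apply, nsmul_eq_mul]
      push_cast
      rw [← hν0 i]
      have h5 : ((μ i : ℚ) + n' * (k0 * lam i)) / (n' * k0) - lam i = μ i / (n' * k0) := by
        field_simp
        ring
      rw [h5, abs_div, abs_of_pos (by positivity : (0 : ℚ) < n' * k0),
        div_le_iff₀ (by positivity)]
      have h6 : |(μ i : ℚ)| ≤ ∑ i, |(μ i : ℚ)| :=
        Finset.single_le_sum (f := fun i => |(μ i : ℚ)|) (fun _ _ => abs_nonneg _)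
          (Finset.mem_univ i)
      rw [div_lt_iff₀ hε] at hn
      have h7 : (1 : ℚ) ≤ k0 := by exact_mod_cast hk0
      have h8 : (n : ℚ) ≤ n' := by rw [hn']; push_cast; linarith
      calc |(μ i : ℚ)| ≤ n * ε := h6.trans hn.le
        _ ≤ n' * ε := mul_le_mul_of_nonneg_right h8 hε.le
        _ = ε * (n' * 1) := by ring
        _ ≤ ε * (n' * k0) := by
          refine mul_le_mul_of_nonneg_left ?_ hε.le
          exact mul_le_mul_of_nonneg_left h7 hn0.le
    obtain ⟨e, he0, he1, he2⟩ := h4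
    have h5 : ∑ i, y P i * x i = (n' * k0) * ∑ b, e b * ∑ i, y P i * g b i := by
      have h6 : ∀ i, x i = (n' * k0) * ∑ b, e b * g b i := by
        intro i
        rw [he2 i]
        field_simp
      simp only [Finset.mul_sum]
      rw [Finset.sum_comm]
      refine Finset.sum_congr rfl fun i _ => ?_
      rw [h6 i, Finset.mul_sum, Finset.mul_sum]
      exact Finset.sum_congr rfl fun b _ => by ring
    rw [h5]
    refine mul_nonneg (by positivity) (Finset.sum_nonneg fun b _ => ?_)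
    by_cases hb : b ∈ BP P
    · rw [(hBPm P b).1 hb]
      exact mul_nonneg (he0 b) (hc0 P hP b)
    · rw [he1 b hb, zero_mul]
  rw [hx] at h3
  beta_reduce at h3
  linarith

/-- **The movable cone is the union of the nef cones of the small modifications.** -/
theorem mov_iff (h0 : ∃ (δ0 : Fin p → Place ℂ K → ℚ) (lam0 : Fin p → ℚ), Small N δ δ0 lam0)
    (lam : Fin p → ℝ) : MovR N δ lam ↔
      ∃ δ' : Fin p → Place ℂ K → ℚ, (∃ lam', Small N δ δ' lam') ∧ NefR N δ' lam := by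
  classical
  constructor
  swap
  · rintro ⟨δ', ⟨lam', hs⟩, hn⟩ ε hε
    obtain ⟨μ, h1, h2⟩ := hn ε hε
    exact ⟨μ, h1, mobA_of_semi hs.1 h2⟩
  intro hmov
  obtain ⟨M, δs, hs1, hs2⟩ := small_reps hgen
  by_contra hcon
  have hnn : ∀ j, ∃ ε : ℝ, 0 < ε ∧ ∀ μ : Fin p → ℚ, (∀ i, |(μ i : ℝ) - lam i| ≤ ε) →
      ¬ SemiA N (δs j) μ := by
    intro j
    by_contra h1
    push Not at h1
    exact hcon ⟨δs j, hs1 j, fun ε hε => h1 ε hε⟩
  choose ε hε hεn using hnn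
  obtain ⟨r, hr, hrj⟩ := exists_pos_le ε (fun _ => True) fun j _ => hε j
  obtain ⟨μ, hμ1, hμ2⟩ := hmov (r / 3) (by linarith)
  obtain ⟨δ0, lam0, hsm0, ε0, hε0, hamp⟩ := h0
  obtain ⟨L, hL⟩ : ∃ L : ℚ, L = ∑ i, |lam0 i| + 1 := ⟨_, rfl⟩
  have hL0 : 0 < L := by rw [hL]; positivity
  obtain ⟨r', hr'0, hr'⟩ : ∃ r' : ℚ, 0 < r' ∧ (r' : ℝ) < r / 3 := by
    obtain ⟨q, h1, h2⟩ := exists_rat_btwn (show (0 : ℝ) < r / 3 by linarith)
    exact ⟨q, by exact_mod_cast h1, h2⟩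
  obtain ⟨t, ht⟩ : ∃ t : ℚ, t = r' / L := ⟨_, rfl⟩
  have ht0 : 0 < t := by rw [ht]; positivity
  obtain ⟨x', hx1, hx2⟩ := exists_generic g (fun i => μ i + t * lam0 i)
    (ε := min (t * ε0) r') (lt_min (by positivity) hr'0)
  have hmx : MobA N δ x' := by
    have h1 : MobA N δ fun i => t * (lam0 i + (x' i - (μ i + t * lam0 i)) / t) := by
      refine mobA_smul (mobA_of_semi hsm0 (hamp _ fun i => ?_)) ht0.le
      have h2 : lam0 i + (x' i - (μ i + t * lam0 i)) / t - lam0 i =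
          (x' i - (μ i + t * lam0 i)) / t := by ring
      rw [h2, abs_div, abs_of_pos ht0, div_le_iff₀ ht0]
      refine (hx1 i).trans ((min_le_left _ _).trans (le_of_eq (mul_comm _ _)))
    have h2 := mobA_add hμ2 h1
    convert h2 using 2
    field_simp
    ring
  obtain ⟨δ', hsm'⟩ := exists_small hgen hmx hx2
  obtain ⟨j, hj⟩ := hs2 δ' ⟨x', hsm'⟩
  obtain ⟨-, ε', hε', hamp'⟩ := hsm'
  refine hεn j x' (fun i => ?_) (semi_congr hj (hamp' x' fun i => by simp [hε'.le]))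
  have h1 := hrj j trivial
  have h2 : |((x' i - (μ i + t * lam0 i) : ℚ) : ℝ)| ≤ r' := by
    have := (hx1 i).trans (min_le_right _ _)
    exact_mod_cast this
  have h3 : |((t * lam0 i : ℚ) : ℝ)| ≤ r' := by
    have h4 : |t * lam0 i| ≤ r' := by
      rw [abs_mul, abs_of_pos ht0, ht]
      have h5 : |lam0 i| ≤ L := by
        rw [hL]
        have := Finset.single_le_sum (f := fun i => |lam0 i|) (fun _ _ => abs_nonneg _)
          (Finset.mem_univ i)
        linarith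
      calc r' / L * |lam0 i| ≤ r' / L * L := mul_le_mul_of_nonneg_left h5 (by positivity)
        _ = r' := by field_simp
    exact_mod_cast h4
  have h4 : (x' i : ℝ) - lam i = ((x' i - (μ i + t * lam0 i) : ℚ) : ℝ) + ((t * lam0 i : ℚ) : ℝ) +
      ((μ i : ℝ) - lam i) := by
    push_cast
    ring
  rw [h4]
  refine (abs_add_le _ _).trans ?_
  have h5 := abs_add_le ((x' i - (μ i + t * lam0 i) : ℚ) : ℝ) ((t * lam0 i : ℚ) : ℝ)
  have h6 := hμ1 i
  linarith

/-- **The movable cone is rational polyhedral.** -/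
theorem mov_cone (h0 : ∃ (δ0 : Fin p → Place ℂ K → ℚ) (lam0 : Fin p → ℚ), Small N δ δ0 lam0) :
    ∃ (Mn : ℕ) (m : Fin Mn → Fin p → ℤ), (∀ b, Mob N δ (m b)) ∧
      ∀ lam : Fin p → ℝ, MovR N δ lam ↔ RC m lam := by
  classical
  obtain ⟨M, δs, hs1, hs2⟩ := small_reps hgen
  choose lam0 hlam0 using hs1
  choose Bn h hb hsemi hnef using fun j => nef_cone hgen (hlam0 j)
  let e : ((j : Fin M) × Fin (Bn j)) ≃ Fin (Fintype.card ((j : Fin M) × Fin (Bn j))) :=
    Fintype.equivFin _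
  obtain ⟨m, hmdef⟩ : ∃ m : Fin (Fintype.card ((j : Fin M) × Fin (Bn j))) → Fin p → ℤ,
    m = fun b => h (e.symm b).1 (e.symm b).2 := ⟨_, rfl⟩
  have hmob : ∀ b, Mob N δ (m b) := by
    intro b
    rw [hmdef]
    exact mob_of_bpf (hlam0 _).1 (hb _ _)
  refine ⟨_, m, hmob, fun lam => ⟨fun hl => ?_, fun hl => ?_⟩⟩
  · obtain ⟨δ', hδ', hn⟩ := (mov_iff hgen h0 lam).1 hl
    obtain ⟨j, hj⟩ := hs2 δ' hδ'
    have h1 := (hnef j lam).1 (nef_congr hj hn)
    refine rc_sum (fun b => ?_) h1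
    have h2 : h j b = m (e ⟨j, b⟩) := by
      rw [hmdef]
      beta_reduce
      rw [Equiv.symm_apply_apply]
    rw [h2]
    exact rc_gen m _
  · intro ε hε
    obtain ⟨q, hq, hq2⟩ := rc_approx hl hε
    exact ⟨_, hq2, mobA_comb hmob hq⟩

end

end Pool.Agent.U660.MD
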