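import Mathlib
import Pool.Agent.H575R2.Farkas
import Pool.Agent.TH152.AC.Farkas
import Pool.Agent.Q57.FT.Cone

/-!
Rational polyhedral cones in `ℝ ^ p`: the theorems of Minkowski and Weyl.
-/

set_option autoImplicit false
set_option linter.all false

namespace Pool.Agent.U660.MD

variable {p : ℕ}

/-- the real vector `lam` is a nonnegative real combination of the integral vectors `h b` -/
def RC {B : ℕ} (h : Fin B → Fin p → ℤ) (lam : Fin p → ℝ) : Prop :=
  ∃ t : Fin B → ℝ, (∀ b, 0 ≤ t b) ∧ ∀ i, lam i = ∑ b, t b * h b i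

/-- the real vector `lam` satisfies the inequalities -/
def IQ {S : ℕ} (A : Fin S → Fin p → ℤ) (lam : Fin p → ℝ) : Prop :=
  ∀ s, 0 ≤ ∑ i, (A s i : ℝ) * lam i

/-- **Minkowski** -/
theorem minkowski {S : ℕ} (A : Fin S → Fin p → ℤ) :
    ∃ (B : ℕ) (h : Fin B → Fin p → ℤ), ∀ lam : Fin p → ℝ, IQ A lam ↔ RC h lam := by
  classical
  obtain ⟨N, h, h1, h2⟩ := Pool.Agent.Q57.FT.real_cone (q := p + p) (ι := Fin S)
    (fun s => Fin.append (A s) (fun i => - A s i))
  have hsum : ∀ (s : Fin S) (y : Fin (p + p) → ℝ), ∑ i, ((Fin.append (A s) (fun i => - A s i) i : ℤ) : ℝ) * y i =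
      ∑ i, (A s i : ℝ) * (y (Fin.castAdd p i) - y (Fin.natAdd p i)) := by
    intro s y
    rw [Fin.sum_univ_add, ← Finset.sum_add_distrib]
    refine Finset.sum_congr rfl fun i _ => ?_
    rw [Fin.append_left, Fin.append_right]
    push_cast
    ring
  refine ⟨N, fun b i => (h b (Fin.castAdd p i) : ℤ) - h b (Fin.natAdd p i), fun lam => ⟨fun hl => ?_, ?_⟩⟩
  · obtain ⟨t, ht, ht2⟩ := h2 (Fin.append (fun i => max (lam i) 0) (fun i => max (-lam i) 0))
      (fun i => by
        refine Fin.addCases (fun j => ?_) (fun j => ?_) i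
        · rw [Fin.append_left]; exact le_max_right _ _
        · rw [Fin.append_right]; exact le_max_right _ _)
      (fun s => by
        rw [hsum]
        refine (hl s).trans (le_of_eq ?_)
        refine Finset.sum_congr rfl fun i _ => ?_
        rw [Fin.append_left, Fin.append_right]
        congr 1
        rcases le_total 0 (lam i) with h0 | h0
        · rw [max_eq_left h0, max_eq_right (by linarith)]; ring
        · rw [max_eq_right h0, max_eq_left (by linarith)]; ring)
    refine ⟨t, ht, fun i => ?_⟩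
    have e1 := ht2 (Fin.castAdd p i)
    have e2 := ht2 (Fin.natAdd p i)
    rw [Fin.append_left] at e1
    rw [Fin.append_right] at e2
    have e3 : lam i = max (lam i) 0 - max (-lam i) 0 := by
      rcases le_total 0 (lam i) with h0 | h0
      · rw [max_eq_left h0, max_eq_right (by linarith)]; ring
      · rw [max_eq_right h0, max_eq_left (by linarith)]; ring
    rw [e3, e1, e2, ← Finset.sum_sub_distrib]
    refine Finset.sum_congr rfl fun b _ => ?_
    push_cast
    ring
  · rintro ⟨t, ht, ht2⟩ s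
    have e : ∑ i, (A s i : ℝ) * lam i = ∑ b, t b * ∑ i, (A s i : ℝ) *
        ((((h b (Fin.castAdd p i) : ℤ) - h b (Fin.natAdd p i) : ℤ)) : ℝ) := by
      simp only [Finset.mul_sum]
      rw [Finset.sum_comm]
      refine Finset.sum_congr rfl fun i _ => ?_
      rw [ht2 i, Finset.mul_sum]
      exact Finset.sum_congr rfl fun b _ => by ring
    rw [e]
    refine Finset.sum_nonneg fun b _ => mul_nonneg (ht b) ?_
    have := h1 b s
    have h3 := hsum s (fun i => ((h b i : ℕ) : ℝ))
    have h4 : (0 : ℝ) ≤ ∑ i, ((Fin.append (A s) (fun i => - A s i) i : ℤ) : ℝ) * ((h b i : ℕ) : ℝ) := by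
      exact_mod_cast this
    rw [h3] at h4
    refine h4.trans (le_of_eq (Finset.sum_congr rfl fun i _ => ?_))
    push_cast
    ring

/-- Farkas for the cone of finitely many vectors -/
theorem rc_of_dual {B : ℕ} (h : Fin B → Fin p → ℤ) (lam : Fin p → ℝ)
    (H : ∀ y : Fin p → ℝ, (∀ b, 0 ≤ ∑ i, (h b i : ℝ) * y i) → 0 ≤ ∑ i, lam i * y i) : RC h lam := by
  classical
  let ev : (Fin p → ℝ) → ((Fin p → ℝ) →ₗ[ℝ] ℝ) := fun v =>
    { toFun := fun y => ∑ i, v i * y i
      map_add' := by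
        intro a b
        simp only [Pi.add_apply, mul_add, Finset.sum_add_distrib]
      map_smul' := by
        intro c a
        simp only [Pi.smul_apply, smul_eq_mul, RingHom.id_apply, Finset.mul_sum]
        exact Finset.sum_congr rfl fun k _ => by ring }
  obtain ⟨w, hw, hf⟩ := H575R2.farkas_lin B (fun b => - ev (fun i => (h b i : ℝ))) (- ev lam) (by
    intro y hy
    have h1 : ∀ b, 0 ≤ ∑ i, (h b i : ℝ) * y i := by
      intro b
      have := hy b
      simp only [LinearMap.neg_apply, neg_nonpos] at this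
      exact this
    have h2 := H y h1
    simp only [LinearMap.neg_apply, neg_nonpos]
    exact h2)
  refine ⟨w, hw, fun i => ?_⟩
  have h1 := hf (Pi.single i 1)
  simp only [LinearMap.neg_apply] at h1
  have h2 : ∀ v : Fin p → ℝ, ev v (Pi.single i 1) = v i := by
    intro v
    change ∑ j, v j * (Pi.single i (1 : ℝ) : Fin p → ℝ) j = v i
    rw [Finset.sum_eq_single i]
    · simp
    · intro j _ hj
      rw [Pi.single_eq_of_ne hj, mul_zero]
    · intro hi
      exact absurd (Finset.mem_univ i) hi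
  rw [h2] at h1
  simp only [h2, mul_neg, Finset.sum_neg_distrib, neg_inj] at h1
  exact h1

/-- **Weyl** -/
theorem weyl {B : ℕ} (h : Fin B → Fin p → ℤ) :
    ∃ (S : ℕ) (A : Fin S → Fin p → ℤ), ∀ lam : Fin p → ℝ, RC h lam ↔ IQ A lam := by
  obtain ⟨S, A, hA⟩ := minkowski h
  refine ⟨S, A, fun lam => ⟨?_, fun hl => ?_⟩⟩
  · rintro ⟨t, ht, ht2⟩ s
    have h1 : IQ h (fun i => (A s i : ℝ)) := (hA _).2
      ⟨fun b => if b = s then 1 else 0, fun b => by beta_reduce; split_ifs <;> norm_num, fun i => by simp⟩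
    have e : ∑ i, (A s i : ℝ) * lam i = ∑ b, t b * ∑ i, (h b i : ℝ) * (A s i : ℝ) := by
      simp only [Finset.mul_sum]
      rw [Finset.sum_comm]
      refine Finset.sum_congr rfl fun i _ => ?_
      rw [ht2 i, Finset.mul_sum]
      exact Finset.sum_congr rfl fun b _ => by ring
    rw [e]
    exact Finset.sum_nonneg fun b _ => mul_nonneg (ht b) (h1 b)
  · refine rc_of_dual h lam fun y hy => ?_
    obtain ⟨t, ht, ht2⟩ := (hA y).1 hy
    have e : ∑ i, lam i * y i = ∑ s, t s * ∑ i, (A s i : ℝ) * lam i := by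
      simp only [Finset.mul_sum]
      rw [Finset.sum_comm]
      refine Finset.sum_congr rfl fun i _ => ?_
      rw [ht2 i, Finset.mul_sum]
      exact Finset.sum_congr rfl fun b _ => by ring
    rw [e]
    exact Finset.sum_nonneg fun s _ => mul_nonneg (ht s) (hl s)

/-- closedness -/
theorem rc_closed {B : ℕ} (h : Fin B → Fin p → ℤ) (lam : Fin p → ℝ)
    (H : ∀ ε : ℝ, 0 < ε → ∃ μ : Fin p → ℝ, (∀ i, |μ i - lam i| ≤ ε) ∧ RC h μ) : RC h lam := by
  obtain ⟨S, A, hA⟩ := weyl h
  rw [hA]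
  intro s
  by_contra hcon
  push Not at hcon
  obtain ⟨C, hC⟩ : ∃ C, C = ∑ i, |(A s i : ℝ)| := ⟨_, rfl⟩
  have hC0 : 0 ≤ C := by rw [hC]; positivity
  obtain ⟨x, hx⟩ : ∃ x, x = ∑ i, (A s i : ℝ) * lam i := ⟨_, rfl⟩
  rw [← hx] at hcon
  have hε : 0 < -x / (2 * (C + 1)) := by
    apply div_pos <;> linarith
  obtain ⟨μ, hμ, hr⟩ := H _ hε
  have h1 := (hA μ).1 hr s
  have h2 : ∑ i, (A s i : ℝ) * μ i - x ≤ C * (-x / (2 * (C + 1))) := by
    rw [hx, hC, ← Finset.sum_sub_distrib, Finset.sum_mul]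
    refine Finset.sum_le_sum fun i _ => ?_
    rw [← mul_sub]
    refine (le_abs_self _).trans ?_
    rw [abs_mul]
    refine mul_le_mul_of_nonneg_left ?_ (abs_nonneg _)
    rw [← hx, ← hC]
    exact hμ i
  have h3 : C * (-x / (2 * (C + 1))) ≤ -x / 2 := by
    rw [mul_div_assoc', div_le_div_iff₀ (by linarith) (by norm_num)]
    nlinarith
  linarith

/-- rational points of the cone -/
theorem rc_rat {B : ℕ} (h : Fin B → Fin p → ℤ) (μ : Fin p → ℚ) (H : RC h (fun i => (μ i : ℝ))) :
    ∃ t : Fin B → ℚ, (∀ b, 0 ≤ t b) ∧ ∀ i, μ i = ∑ b, t b * h b i := by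
  classical
  let ev : (Fin p → ℚ) → ((Fin p → ℚ) →ₗ[ℚ] ℚ) := fun v =>
    { toFun := fun y => ∑ i, v i * y i
      map_add' := by
        intro a b
        simp only [Pi.add_apply, mul_add, Finset.sum_add_distrib]
      map_smul' := by
        intro c a
        simp only [Pi.smul_apply, smul_eq_mul, RingHom.id_apply, Finset.mul_sum]
        exact Finset.sum_congr rfl fun k _ => by ring }
  obtain ⟨t0, ht0, ht1⟩ := H
  obtain ⟨w, hw, hf⟩ := Pool.Agent.TH152.AC.farkas_q B (fun b => - ev (fun i => (h b i : ℚ)))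
    (- ev μ) (by
    intro y hy
    have h1 : ∀ b, 0 ≤ ∑ i, (h b i : ℚ) * y i := by
      intro b
      have := hy b
      simp only [LinearMap.neg_apply, neg_nonpos] at this
      exact this
    simp only [LinearMap.neg_apply, neg_nonpos]
    have h2 : (0 : ℝ) ≤ ((∑ i, μ i * y i : ℚ) : ℝ) := by
      push_cast
      have e : ∑ i, (μ i : ℝ) * (y i : ℝ) = ∑ b, t0 b * ((∑ i, (h b i : ℚ) * y i : ℚ) : ℝ) := by
        push_cast
        simp only [Finset.mul_sum]
        rw [Finset.sum_comm]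
        refine Finset.sum_congr rfl fun i _ => ?_
        have ht1i : (μ i : ℝ) = ∑ b, t0 b * (h b i : ℝ) := ht1 i
        rw [ht1i, Finset.sum_mul]
        exact Finset.sum_congr rfl fun b _ => by ring
      rw [e]
      exact Finset.sum_nonneg fun b _ => mul_nonneg (ht0 b) (by exact_mod_cast h1 b)
    exact_mod_cast h2)
  refine ⟨w, hw, fun i => ?_⟩
  have h1 := hf (Pi.single i 1)
  simp only [LinearMap.neg_apply] at h1
  have h2 : ∀ v : Fin p → ℚ, ev v (Pi.single i 1) = v i := by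
    intro v
    change ∑ j, v j * (Pi.single i (1 : ℚ) : Fin p → ℚ) j = v i
    rw [Finset.sum_eq_single i]
    · simp
    · intro j _ hj
      rw [Pi.single_eq_of_ne hj, mul_zero]
    · intro hi
      exact absurd (Finset.mem_univ i) hi
  rw [h2] at h1
  simp only [h2, mul_neg, Finset.sum_neg_distrib, neg_inj] at h1
  exact h1

theorem rc_add {B : ℕ} {h : Fin B → Fin p → ℤ} {lam lam' : Fin p → ℝ} (H : RC h lam)
    (H' : RC h lam') : RC h (fun i => lam i + lam' i) := by
  obtain ⟨t, ht, ht2⟩ := H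
  obtain ⟨t', ht', ht2'⟩ := H'
  refine ⟨fun b => t b + t' b, fun b => add_nonneg (ht b) (ht' b), fun i => ?_⟩
  beta_reduce
  rw [ht2, ht2', ← Finset.sum_add_distrib]
  exact Finset.sum_congr rfl fun b _ => by ring

theorem rc_smul {B : ℕ} {h : Fin B → Fin p → ℤ} {lam : Fin p → ℝ} (H : RC h lam) {c : ℝ}
    (hc : 0 ≤ c) : RC h (fun i => c * lam i) := by
  obtain ⟨t, ht, ht2⟩ := H
  refine ⟨fun b => c * t b, fun b => mul_nonneg hc (ht b), fun i => ?_⟩
  beta_reduce
  rw [ht2, Finset.mul_sum]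
  exact Finset.sum_congr rfl fun b _ => by ring

theorem rc_zero {B : ℕ} {h : Fin B → Fin p → ℤ} : RC h (fun _ => (0 : ℝ)) :=
  ⟨fun _ => 0, fun _ => le_rfl, fun i => by simp⟩

theorem rc_gen {B : ℕ} (h : Fin B → Fin p → ℤ) (b : Fin B) : RC h (fun i => (h b i : ℝ)) :=
  ⟨fun c => if c = b then 1 else 0, fun c => by beta_reduce; split_ifs <;> norm_num, fun i => by simp⟩

theorem rc_sum {B B' : ℕ} {h : Fin B → Fin p → ℤ} {g : Fin B' → Fin p → ℤ}
    (H : ∀ b, RC g (fun i => (h b i : ℝ))) {lam : Fin p → ℝ} (hl : RC h lam) : RC g lam := by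
  obtain ⟨t, ht, ht2⟩ := hl
  choose s hs hs2 using H
  refine ⟨fun c => ∑ b, t b * s b c, fun c => Finset.sum_nonneg fun b _ =>
    mul_nonneg (ht b) (hs b c), fun i => ?_⟩
  rw [ht2]
  simp only [Finset.sum_mul]
  rw [Finset.sum_comm]
  refine Finset.sum_congr rfl fun b _ => ?_
  have hs2i : (h b i : ℝ) = ∑ c, s b c * (g c i : ℝ) := hs2 b i
  rw [hs2i, Finset.mul_sum]
  exact Finset.sum_congr rfl fun c _ => by ring

/-- **Intersections.** A finite intersection of rational polyhedral cones -/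
theorem rc_inter {ι : Type} [Fintype ι] {B : ι → ℕ} (h : ∀ k, Fin (B k) → Fin p → ℤ) {S : ℕ}
    (A : Fin S → Fin p → ℤ) :
    ∃ (N : ℕ) (g : Fin N → Fin p → ℤ), ∀ lam : Fin p → ℝ,
      RC g lam ↔ (∀ k, RC (h k) lam) ∧ IQ A lam := by
  classical
  choose T E hE using fun k => weyl (h k)
  obtain ⟨e⟩ : Nonempty (((k : ι) × Fin (T k)) ⊕ Fin S ≃ Fin (Fintype.card (((k : ι) × Fin (T k)) ⊕ Fin S))) :=
    ⟨Fintype.equivFin _⟩
  obtain ⟨N, g, hg⟩ := minkowski (p := p) (fun s => Sum.elim (fun a : (k : ι) × Fin (T k) => E a.1 a.2) A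
    (e.symm s))
  refine ⟨N, g, fun lam => ?_⟩
  rw [← hg]
  constructor
  · intro hl
    refine ⟨fun k => (hE k lam).2 fun s => ?_, fun s => ?_⟩
    · have := hl (e (Sum.inl ⟨k, s⟩))
      simpa using this
    · have := hl (e (Sum.inr s))
      simpa using this
  · rintro ⟨h1, h2⟩ s
    obtain ⟨x, rfl⟩ := e.surjective s
    beta_reduce
    rw [Equiv.symm_apply_apply]
    rcases x with ⟨k, s⟩ | s
    · exact (hE k lam).1 (h1 k) s
    · exact h2 s

end Pool.Agent.U660.MD
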